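import Mathlib
import Pool.Agent.H362R2.CM.Main

/-! Maynard-Tao theorem with weights on the pairs of the forms.  The sieve estimates are those of
`Pool.Agent.H362R2.CM` (helper362); the averaging follows `Pool.Agent.TH779.Ord.Eng` (helper779), with
arbitrary weights instead of classes. -/

set_option autoImplicit false

namespace Pool.Agent.Helper274_OB

open Finset Filter Topology
open Pool.Agent.H362R2.CM
open Pool.Agent.H410R2 hiding GP GP_prof GP_cut_some GP_cut_none GP_lip gg_pos gg_le_one gg_anti ee_bound ee_nonneg gg_lip LB_gg LB_ee Sums exists_sums yx wx wxi Br sum_GP_none sum_GP_some sum_GP_some_ee sum_GP_some_one sum_GPr_none sum_GPr_some S1_final QI_final S2_final w_abs_le wmax gg ee I1 I2 IE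
open Pool.Agent.H361R2.GM

/-- the functional -/
noncomputable def Fw {κ : Type*} [DecidableEq κ] (w : κ → κ → ℝ) (S : Finset κ) : ℝ :=
  (S.card : ℝ) - ∑ i ∈ S, ∑ j ∈ S.filter (fun j => i ≠ j), w i j

theorem Fw_le {κ : Type*} [DecidableEq κ] (w : κ → κ → ℝ) (hw : ∀ i j, 0 ≤ w i j) (S : Finset κ) :
    Fw w S ≤ S.card := by
  unfold Fw
  have : 0 ≤ ∑ i ∈ S, ∑ j ∈ S.filter (fun j => i ≠ j), w i j :=
    sum_nonneg fun i _ => sum_nonneg fun j _ => hw i j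
  linarith

theorem class_sumW {κ : Type*} [DecidableEq κ] (N : Finset ℕ) (u : ℕ → ℝ)
    (C : Finset κ) (pr : κ → ℕ → Prop) [∀ i n, Decidable (pr i n)] (α γ W : ℝ) (w : κ → κ → ℝ)
    (hw : ∀ i j, 0 ≤ w i j) (hW : ∑ i ∈ C, ∑ j ∈ C.filter (fun j => i ≠ j), w i j ≤ W)
    (hγ : 0 ≤ γ) (hS : ∀ i ∈ C, α ≤ ∑ n ∈ N, if pr i n then u n else 0)
    (hP : ∀ i ∈ C, ∀ j ∈ C, i ≠ j → (∑ n ∈ N, if pr i n ∧ pr j n then u n else 0) ≤ γ) :
    C.card * α - W * γ ≤ ∑ n ∈ N, u n * Fw w (C.filter (fun i => pr i n)) := by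
  classical
  have h1 : C.card * α ≤ ∑ n ∈ N, u n * ((C.filter (fun i => pr i n)).card : ℝ) := by
    have e1 : ∑ n ∈ N, u n * ((C.filter (fun i => pr i n)).card : ℝ) =
        ∑ i ∈ C, ∑ n ∈ N, if pr i n then u n else 0 := by
      rw [Finset.sum_comm]
      refine Finset.sum_congr rfl fun n _ => ?_
      rw [card_filter]
      push_cast
      rw [Finset.mul_sum]
      refine Finset.sum_congr rfl fun i _ => ?_
      split_ifs <;> simp
    rw [e1, ← nsmul_eq_mul]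
    exact Finset.card_nsmul_le_sum _ _ _ hS
  have h2 : ∑ n ∈ N, u n * (∑ i ∈ C.filter (fun i => pr i n),
      ∑ j ∈ (C.filter (fun i => pr i n)).filter (fun j => i ≠ j), w i j) ≤ W * γ := by
    have e1 : ∑ n ∈ N, u n * (∑ i ∈ C.filter (fun i => pr i n),
        ∑ j ∈ (C.filter (fun i => pr i n)).filter (fun j => i ≠ j), w i j) =
        ∑ i ∈ C, ∑ j ∈ C.filter (fun j => i ≠ j),
          w i j * ∑ n ∈ N, if pr i n ∧ pr j n then u n else 0 := by
      have h3 : ∀ n, u n * (∑ i ∈ C.filter (fun i => pr i n),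
          ∑ j ∈ (C.filter (fun i => pr i n)).filter (fun j => i ≠ j), w i j) =
          ∑ i ∈ C, ∑ j ∈ C.filter (fun j => i ≠ j), w i j * (if pr i n ∧ pr j n then u n else 0) := by
        intro n
        rw [Finset.sum_filter, Finset.mul_sum]
        refine Finset.sum_congr rfl fun i _ => ?_
        by_cases hi : pr i n
        · rw [if_pos hi, Finset.filter_filter, Finset.mul_sum]
          have h4 : C.filter (fun j => pr j n ∧ i ≠ j) =
              (C.filter (fun j => i ≠ j)).filter (fun j => pr j n) := by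
            ext x
            simp only [mem_filter]
            tauto
          rw [h4, Finset.sum_filter]
          refine Finset.sum_congr rfl fun j _ => ?_
          by_cases hj : pr j n
          · rw [if_pos hj, if_pos ⟨hi, hj⟩, mul_comm]
          · rw [if_neg hj, if_neg (fun h => hj h.2), mul_zero]
        · rw [if_neg hi, mul_zero]
          symm
          apply Finset.sum_eq_zero
          intro j _
          rw [if_neg (fun h => hi h.1), mul_zero]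
      rw [Finset.sum_congr rfl fun n _ => h3 n, Finset.sum_comm]
      refine Finset.sum_congr rfl fun i _ => ?_
      rw [Finset.sum_comm]
      refine Finset.sum_congr rfl fun j _ => ?_
      rw [Finset.mul_sum]
    rw [e1]
    calc ∑ i ∈ C, ∑ j ∈ C.filter (fun j => i ≠ j),
          w i j * ∑ n ∈ N, (if pr i n ∧ pr j n then u n else 0)
        ≤ ∑ i ∈ C, ∑ j ∈ C.filter (fun j => i ≠ j), w i j * γ := by
          apply Finset.sum_le_sum
          intro i hi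
          apply Finset.sum_le_sum
          intro j hj
          obtain ⟨hj1, hj2⟩ := mem_filter.1 hj
          exact mul_le_mul_of_nonneg_left (hP i hi j hj1 hj2) (hw i j)
      _ = (∑ i ∈ C, ∑ j ∈ C.filter (fun j => i ≠ j), w i j) * γ := by
          rw [Finset.sum_mul]
          refine Finset.sum_congr rfl fun i _ => ?_
          rw [Finset.sum_mul]
      _ ≤ W * γ := mul_le_mul_of_nonneg_right hW hγ
  have h3 : ∑ n ∈ N, u n * Fw w (C.filter (fun i => pr i n)) =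
      (∑ n ∈ N, u n * ((C.filter (fun i => pr i n)).card : ℝ)) -
        ∑ n ∈ N, u n * (∑ i ∈ C.filter (fun i => pr i n),
      ∑ j ∈ (C.filter (fun i => pr i n)).filter (fun j => i ≠ j), w i j) := by
    rw [← Finset.sum_sub_distrib]
    refine Finset.sum_congr rfl fun n _ => ?_
    unfold Fw
    ring
  rw [h3]
  linarith

/-- the strict inequality at `ε = 0` -/
theorem base_fewW (z : ℝ) (hz : 1 ≤ z) : ∃ M0 : ℕ, 2 ≤ M0 ∧ ∀ M : ℕ, M0 ≤ M → ∀ R : ℝ, 0 ≤ R →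
    32 * z * R ≤ M → ∃ (Q : SPar) (ρ : ℝ), 0 < ρ ∧
    ρ ≤ 1 / 16 ∧ 0 < Q.I1 ∧ 0 < Q.I2 ∧ 0 < Br Q M 0 ∧
    (z / 2 * (1 + 0) + 0) * Ac Q M 0 < M * (ρ * βc Q M 0) - M * R * γc Q M ρ 0 := by
  set s : ℝ := 7 with hs
  set A : ℝ := 10000 * z with hA
  have hs1 : 1 ≤ s := by rw [hs]; norm_num
  have hAs : 2 * s + 4 ≤ A := by rw [hs, hA]; linarith
  have hA4 : 4 ≤ A := by linarith
  obtain ⟨K', hK'⟩ := exists_nat_ge (100 * s ^ 2 * Real.exp A)
  refine ⟨K' + 2, by omega, fun M hM R hR hzR => ?_⟩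
  have hMR : 100 * s ^ 2 * Real.exp A ≤ (M : ℝ) := by
    have : ((K' + 2 : ℕ) : ℝ) ≤ M := by exact_mod_cast hM
    push_cast at this
    linarith
  have hM2 : 2 ≤ M := by omega
  have hM2R : (2 : ℝ) ≤ M := by exact_mod_cast hM2
  obtain ⟨Q, hQG, hQc, hQl⟩ := exists_parS A s hA4 hs1 M hMR
  obtain ⟨hI1, hI2, hI2le, hBl, hBu⟩ := Br_zero_bounds A s hs1 hAs M hMR Q hQG hQc hQl
  have hM0 : (0 : ℝ) < M := by linarith
  have hI1pos : 0 < Q.I1 := by rw [hI1]; positivity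
  set v : ℝ := M * Q.I1 ^ 2 / Q.I2 with hv
  have hv1 : A ≤ v := by
    rw [hv, le_div_iff₀ hI2, hI1]
    have hA0 : 0 < A := by linarith
    calc A * Q.I2 ≤ A * (1 / (A * M)) := by gcongr
      _ = M * (1 / (M : ℝ)) ^ 2 := by field_simp
  have hv0 : 0 < v := by linarith
  have hz0 : 0 < z := by linarith
  set ρ : ℝ := z / v with hρ
  have hρ0 : 0 < ρ := by rw [hρ]; positivity
  have hρ1 : ρ ≤ 1 / 10000 := by
    rw [hρ, div_le_iff₀ hv0]
    rw [hA] at hv1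
    linarith
  have hρv : ρ * v = z := by
    rw [hρ]; field_simp
  set η : ℝ := Real.exp (-s + 2) with hη
  have hη1 : η ≤ 1 / 100 := by
    have h1 : Real.exp 5 * η = 1 := by
      rw [hη, ← Real.exp_add, hs]
      norm_num
    have h2 : (100 : ℝ) ≤ Real.exp 5 := by
      have h3 : (2.7 : ℝ) ≤ Real.exp 1 := by
        have := Real.exp_one_gt_d9; linarith
      calc (100 : ℝ) ≤ 2.7 ^ 5 := by norm_num
        _ ≤ (Real.exp 1) ^ 5 := pow_le_pow_left₀ (by norm_num) h3 5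
        _ = Real.exp 5 := by rw [← Real.exp_nat_mul]; norm_num
    have h4 : 0 < η := Real.exp_pos _
    nlinarith
  set P : ℝ := (1 / 3) * Q.I2 ^ (M - 2) with hP
  have hP0 : 0 < P := by positivity
  have hpow1 : (1 / 3) * Q.I2 ^ (M - 1) = P * Q.I2 := by
    have : M - 1 = (M - 2) + 1 := by omega
    rw [this, pow_succ, hP]; ring
  have hpow2 : (1 / 3) * Q.I2 ^ M = P * Q.I2 ^ 2 := by
    have : M = (M - 2) + 2 := by omega
    rw [hP, mul_assoc, ← pow_add, ← this]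
  set b : ℝ := Br Q M 0 / (P * Q.I2) with hb
  have hPI : 0 < P * Q.I2 := by positivity
  have hBb : Br Q M 0 = b * (P * Q.I2) := by
    rw [hb]; field_simp
  rw [hpow1] at hBl hBu
  have hb1 : 99 / 100 ≤ b := by
    have : 1 - η ≤ b := by
      rw [hb, le_div_iff₀ hPI]; exact hBl
    linarith
  have hb0 : 0 < b := by linarith
  have hBpos : 0 < Br Q M 0 := by rw [hBb]; positivity
  refine ⟨Q, ρ, hρ0, by linarith, hI1pos, hI2, hBpos, ?_⟩
  have hAc : Ac Q M 0 = P * Q.I2 ^ 2 := by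
    unfold Ac
    rw [← hpow2]; simp
  have hβ : βc Q M 0 = Q.I1 ^ 2 * (b * (P * Q.I2)) := by
    unfold βc
    rw [hBb]; simp
  have hγ : γc Q M ρ 0 = ρ ^ 2 / (1 / 4 - 2 * ρ) * (Q.I1 ^ 4 * P) := by
    unfold γc
    rw [hP]; simp
  rw [hAc, hβ, hγ]
  have hq0 : 0 < 1 / 4 - 2 * ρ := by linarith
  have e1 : M * (ρ * (Q.I1 ^ 2 * (b * (P * Q.I2)))) = P * Q.I2 ^ 2 * (ρ * v * b) := by
    rw [hv]; field_simp
  have e2 : M * R * (ρ ^ 2 / (1 / 4 - 2 * ρ) * (Q.I1 ^ 4 * P)) =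
      P * Q.I2 ^ 2 * (R / M * ((ρ * v) ^ 2 / (1 / 4 - 2 * ρ))) := by
    rw [hv]; field_simp
  rw [e1, e2, hρv]
  have hPI2 : 0 < P * Q.I2 ^ 2 := by positivity
  have e3 : P * Q.I2 ^ 2 * (z * b) - P * Q.I2 ^ 2 * (R / M * (z ^ 2 / (1 / 4 - 2 * ρ))) =
      (z * b - R / M * (z ^ 2 / (1 / 4 - 2 * ρ))) * (P * Q.I2 ^ 2) := by ring
  rw [e3]
  apply mul_lt_mul_of_pos_right _ hPI2
  have h5 : z ^ 2 / (1 / 4 - 2 * ρ) ≤ z ^ 2 * (41 / 10) := by
    rw [div_le_iff₀ hq0]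
    have h6 : 1 ≤ 41 / 10 * (1 / 4 - 2 * ρ) := by linarith
    have h7 : 0 ≤ z ^ 2 := sq_nonneg _
    calc z ^ 2 = z ^ 2 * 1 := (mul_one _).symm
      _ ≤ z ^ 2 * (41 / 10 * (1 / 4 - 2 * ρ)) := mul_le_mul_of_nonneg_left h6 h7
      _ = _ := by ring
  have h6 : 0 ≤ R / M := by positivity
  have h7 : R / M * (z ^ 2 / (1 / 4 - 2 * ρ)) ≤ z * (41 / 320) := by
    have h8 : R / M * (32 * z) ≤ 1 := by
      rw [div_mul_eq_mul_div, div_le_one hM0]
      linarith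
    calc R / M * (z ^ 2 / (1 / 4 - 2 * ρ)) ≤ R / M * (z ^ 2 * (41 / 10)) :=
          mul_le_mul_of_nonneg_left h5 h6
      _ = (R / M * (32 * z)) * (z * (41 / 320)) := by ring
      _ ≤ 1 * (z * (41 / 320)) := mul_le_mul_of_nonneg_right h8 (by positivity)
      _ = _ := one_mul _
  have h9 : z * (99 / 100) ≤ z * b := mul_le_mul_of_nonneg_left hb1 hz0.le
  linarith

theorem num_fewW (z : ℝ) (hz : 1 ≤ z) : ∃ M0 : ℕ, 2 ≤ M0 ∧ ∀ M : ℕ, M0 ≤ M → ∀ R : ℝ, 0 ≤ R →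
    32 * z * R ≤ M → ∃ (Q : SPar) (ρ ε : ℝ), 0 < ρ ∧
    ρ ≤ 1 / 16 ∧ 0 < ε ∧ ε < 1 / 3 ∧ ε < Q.I1 ∧ ε < Q.I2 ∧ 0 < Br Q M ε ∧
    (z / 2 * (1 + ε) + ε) * Ac Q M ε < M * (ρ * βc Q M ε) - M * R * γc Q M ρ ε := by
  obtain ⟨M0, hM02, hbase⟩ := base_fewW z hz
  refine ⟨M0, hM02, fun M hM R hR hzR => ?_⟩
  obtain ⟨Q, ρ, hρ, hρ1, hI1, hI2, hB, hb⟩ := hbase M hM R hR hzR
  have hcB : Continuous fun ε : ℝ => Br Q M ε := by
    unfold Br
    fun_prop
  have hcβ : Continuous fun ε : ℝ => βc Q M ε := by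
    unfold βc
    fun_prop
  have hcA : Continuous fun ε : ℝ => Ac Q M ε := by
    unfold Ac
    fun_prop
  have hcγ : ContinuousAt (fun ε : ℝ => γc Q M ρ ε) 0 := by
    unfold γc
    have h1 : ContinuousAt (fun ε : ℝ => (1 + ε) ^ 8 / (1 - ε) ^ 4) 0 := by
      apply ContinuousAt.div (by fun_prop) (by fun_prop)
      norm_num
    have h2 : ContinuousAt (fun ε : ℝ =>
        (Q.I1 + ε) ^ 4 * ((1 / 3 + ε) * (Q.I2 + ε) ^ (M - 2))) 0 := by fun_prop
    exact (continuousAt_const.mul h1).mul h2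
  have hc1 : ContinuousAt (fun ε : ℝ => (z / 2 * (1 + ε) + ε) * Ac Q M ε) 0 :=
    ContinuousAt.mul (by fun_prop) hcA.continuousAt
  have hc2 : ContinuousAt (fun ε : ℝ => (M : ℝ) * (ρ * βc Q M ε) - M * R * γc Q M ρ ε) 0 :=
    (continuousAt_const.mul (continuousAt_const.mul hcβ.continuousAt)).sub
      (continuousAt_const.mul hcγ)
  have hev : ∀ᶠ ε : ℝ in 𝓝 0, (z / 2 * (1 + ε) + ε) * Ac Q M ε <
      (M : ℝ) * (ρ * βc Q M ε) - M * R * γc Q M ρ ε :=
    hc1.tendsto.eventually_lt hc2.tendsto hb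
  have hev1 : ∀ᶠ ε : ℝ in 𝓝 0, ε < 1 / 3 := gt_mem_nhds (by norm_num)
  have hev2 : ∀ᶠ ε : ℝ in 𝓝 0, ε < Q.I1 := gt_mem_nhds hI1
  have hev3 : ∀ᶠ ε : ℝ in 𝓝 0, ε < Q.I2 := gt_mem_nhds hI2
  have hev4 : ∀ᶠ ε : ℝ in 𝓝 0, 0 < Br Q M ε := by
    have := hcB.tendsto (0 : ℝ)
    exact this.eventually (lt_mem_nhds hB)
  have hall := ((hev.and (hev1.and (hev2.and (hev3.and hev4)))).filter_mono
    (nhdsWithin_le_nhds (s := Set.Ioi (0 : ℝ)))).and (self_mem_nhdsWithin (s := Set.Ioi (0 : ℝ)))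
  obtain ⟨ε, ⟨h1, h2, h3, h4, h5⟩, h6⟩ := hall.exists
  exact ⟨Q, ρ, ε, hρ, hρ1, h6, h2, h3, h4, h5, h1⟩

end Pool.Agent.Helper274_OB
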