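import Mathlib
import Pool.Agent.Helper274_OB.EngW

/-! Maynard-Tao theorem with weights on the pairs of the forms: explicit constants. -/

set_option autoImplicit false

namespace Pool.Agent.Helper274_OB

open Finset Filter Topology
open Pool.Agent.H362R2.CM
open Pool.Agent.H410R2 hiding GP GP_prof GP_cut_some GP_cut_none GP_lip gg_pos gg_le_one gg_anti ee_bound ee_nonneg gg_lip LB_gg LB_ee Sums exists_sums yx wx wxi Br sum_GP_none sum_GP_some sum_GP_some_ee sum_GP_some_one sum_GPr_none sum_GPr_some S1_final QI_final S2_final w_abs_le wmax gg ee I1 I2 IE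
open Pool.Agent.H361R2.GM

/-- the strict inequality at `ε = 0` -/
theorem base_fewX (y : ℝ) (hy : 1 ≤ y) (M : ℕ) (hM : 4900 * Real.exp (690 * y) ≤ M) (R : ℝ)
    (hR : 0 ≤ R) (hyR : 17 * y * R ≤ M) : ∃ (Q : SPar) (ρ : ℝ), 0 < ρ ∧
    ρ ≤ 1 / 16 ∧ 0 < Q.I1 ∧ 0 < Q.I2 ∧ 0 < Br Q M 0 ∧
    (y * (1 + 0) + 0) * Ac Q M 0 < M * (ρ * βc Q M 0) - M * R * γc Q M ρ 0 := by
  set s : ℝ := 7 with hs
  set A : ℝ := 690 * y with hA
  set z : ℝ := 2.02 * y with hzdef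
  have hs1 : 1 ≤ s := by rw [hs]; norm_num
  have hAs : 2 * s + 4 ≤ A := by rw [hs, hA]; linarith
  have hA4 : 4 ≤ A := by linarith
  have hMR : 100 * s ^ 2 * Real.exp A ≤ (M : ℝ) := by
    have : 100 * s ^ 2 = (4900 : ℝ) := by rw [hs]; norm_num
    rw [this]
    exact hM
  have hM2R : (2 : ℝ) ≤ M := by
    have h1 : 1 ≤ Real.exp A := Real.one_le_exp (by linarith)
    have h2 : 4900 * 1 ≤ 4900 * Real.exp (690 * y) := by
      apply mul_le_mul_of_nonneg_left _ (by norm_num)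
      exact h1
    linarith
  have hM2 : 2 ≤ M := by exact_mod_cast hM2R
  obtain ⟨Q, hQG, hQc, hQl⟩ := exists_parS A s hA4 hs1 M hMR
  obtain ⟨hI1, hI2, hI2le, hBl, hBu⟩ := Br_zero_bounds A s hs1 hAs M hMR Q hQG hQc hQl
  have hM0 : (0 : ℝ) < M := by linarith
  have hI1pos : 0 < Q.I1 := by rw [hI1]; positivity
  set v : ℝ := M * Q.I1 ^ 2 / Q.I2 with hv
  have hv1 : A ≤ v := by
    rw [hv, le_div_iff₀ hI2, hI1]
    have hA0 : 0 < A := by linarith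
    calc A * Q.I2 ≤ A * (1 / (A * M)) := by gcongr
      _ = M * (1 / (M : ℝ)) ^ 2 := by field_simp
  have hv0 : 0 < v := by linarith
  have hz0 : 0 < z := by rw [hzdef]; linarith
  set ρ : ℝ := z / v with hρ
  have hρ0 : 0 < ρ := by rw [hρ]; positivity
  have hρ1 : ρ ≤ 1 / 340 := by
    rw [hρ, div_le_iff₀ hv0]
    rw [hA] at hv1
    rw [hzdef]
    linarith
  have hρv : ρ * v = z := by
    rw [hρ]; field_simp
  set η : ℝ := Real.exp (-s + 2) with hη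
  have hη1 : η ≤ 1 / 100 := by
    have h1 : Real.exp 5 * η = 1 := by
      rw [hη, ← Real.exp_add, hs]
      norm_num
    have h2 : (100 : ℝ) ≤ Real.exp 5 := by
      have h3 : (2.7 : ℝ) ≤ Real.exp 1 := by
        have := Real.exp_one_gt_d9; linarith
      calc (100 : ℝ) ≤ 2.7 ^ 5 := by norm_num
        _ ≤ (Real.exp 1) ^ 5 := pow_le_pow_left₀ (by norm_num) h3 5
        _ = Real.exp 5 := by rw [← Real.exp_nat_mul]; norm_num
    have h4 : 0 < η := Real.exp_pos _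
    nlinarith
  set P : ℝ := (1 / 3) * Q.I2 ^ (M - 2) with hP
  have hP0 : 0 < P := by positivity
  have hpow1 : (1 / 3) * Q.I2 ^ (M - 1) = P * Q.I2 := by
    have : M - 1 = (M - 2) + 1 := by omega
    rw [this, pow_succ, hP]; ring
  have hpow2 : (1 / 3) * Q.I2 ^ M = P * Q.I2 ^ 2 := by
    have : M = (M - 2) + 2 := by omega
    rw [hP, mul_assoc, ← pow_add, ← this]
  set b : ℝ := Br Q M 0 / (P * Q.I2) with hb
  have hPI : 0 < P * Q.I2 := by positivity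
  have hBb : Br Q M 0 = b * (P * Q.I2) := by
    rw [hb]; field_simp
  rw [hpow1] at hBl hBu
  have hb1 : 99 / 100 ≤ b := by
    have : 1 - η ≤ b := by
      rw [hb, le_div_iff₀ hPI]; exact hBl
    linarith
  have hb0 : 0 < b := by linarith
  have hBpos : 0 < Br Q M 0 := by rw [hBb]; positivity
  refine ⟨Q, ρ, hρ0, by linarith, hI1pos, hI2, hBpos, ?_⟩
  have hAc : Ac Q M 0 = P * Q.I2 ^ 2 := by
    unfold Ac
    rw [← hpow2]; simp
  have hβ : βc Q M 0 = Q.I1 ^ 2 * (b * (P * Q.I2)) := by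
    unfold βc
    rw [hBb]; simp
  have hγ : γc Q M ρ 0 = ρ ^ 2 / (1 / 4 - 2 * ρ) * (Q.I1 ^ 4 * P) := by
    unfold γc
    rw [hP]; simp
  rw [hAc, hβ, hγ]
  have hq0 : 0 < 1 / 4 - 2 * ρ := by linarith
  have e1 : M * (ρ * (Q.I1 ^ 2 * (b * (P * Q.I2)))) = P * Q.I2 ^ 2 * (ρ * v * b) := by
    rw [hv]; field_simp
  have e2 : M * R * (ρ ^ 2 / (1 / 4 - 2 * ρ) * (Q.I1 ^ 4 * P)) =
      P * Q.I2 ^ 2 * (R / M * ((ρ * v) ^ 2 / (1 / 4 - 2 * ρ))) := by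
    rw [hv]; field_simp
  rw [e1, e2, hρv]
  have hPI2 : 0 < P * Q.I2 ^ 2 := by positivity
  have e3 : P * Q.I2 ^ 2 * (z * b) - P * Q.I2 ^ 2 * (R / M * (z ^ 2 / (1 / 4 - 2 * ρ))) =
      (z * b - R / M * (z ^ 2 / (1 / 4 - 2 * ρ))) * (P * Q.I2 ^ 2) := by ring
  rw [e3]
  apply mul_lt_mul_of_pos_right _ hPI2
  have h5 : z ^ 2 / (1 / 4 - 2 * ρ) ≤ z ^ 2 * (41 / 10) := by
    rw [div_le_iff₀ hq0]
    have h6 : 1 ≤ 41 / 10 * (1 / 4 - 2 * ρ) := by linarith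
    have h7 : 0 ≤ z ^ 2 := sq_nonneg _
    calc z ^ 2 = z ^ 2 * 1 := (mul_one _).symm
      _ ≤ z ^ 2 * (41 / 10 * (1 / 4 - 2 * ρ)) := mul_le_mul_of_nonneg_left h6 h7
      _ = _ := by ring
  have h6 : 0 ≤ R / M := by positivity
  have h7 : R / M * (z ^ 2 / (1 / 4 - 2 * ρ)) ≤ 0.985 * y := by
    have h8 : R / M * (17 * y) ≤ 1 := by
      rw [div_mul_eq_mul_div, div_le_one hM0]
      linarith
    calc R / M * (z ^ 2 / (1 / 4 - 2 * ρ)) ≤ R / M * (z ^ 2 * (41 / 10)) :=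
          mul_le_mul_of_nonneg_left h5 h6
      _ = (R / M * (17 * y)) * (16.72964 / 17 * y) := by rw [hzdef]; ring
      _ ≤ 1 * (16.72964 / 17 * y) := mul_le_mul_of_nonneg_right h8 (by positivity)
      _ ≤ 0.985 * y := by
        rw [one_mul]
        apply mul_le_mul_of_nonneg_right _ (by linarith)
        norm_num
  have h9 : z * (99 / 100) ≤ z * b := mul_le_mul_of_nonneg_left hb1 hz0.le
  have h10 : z * (99 / 100) = 1.9998 * y := by rw [hzdef]; ring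
  linarith

theorem num_fewX (y : ℝ) (hy : 1 ≤ y) (M : ℕ) (hM : 4900 * Real.exp (690 * y) ≤ M) (R : ℝ)
    (hR : 0 ≤ R) (hyR : 17 * y * R ≤ M) : ∃ (Q : SPar) (ρ ε : ℝ), 0 < ρ ∧
    ρ ≤ 1 / 16 ∧ 0 < ε ∧ ε < 1 / 3 ∧ ε < Q.I1 ∧ ε < Q.I2 ∧ 0 < Br Q M ε ∧
    (y * (1 + ε) + ε) * Ac Q M ε < M * (ρ * βc Q M ε) - M * R * γc Q M ρ ε := by
  obtain ⟨Q, ρ, hρ, hρ1, hI1, hI2, hB, hb⟩ := base_fewX y hy M hM R hR hyR
  have hcB : Continuous fun ε : ℝ => Br Q M ε := by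
    unfold Br
    fun_prop
  have hcβ : Continuous fun ε : ℝ => βc Q M ε := by
    unfold βc
    fun_prop
  have hcA : Continuous fun ε : ℝ => Ac Q M ε := by
    unfold Ac
    fun_prop
  have hcγ : ContinuousAt (fun ε : ℝ => γc Q M ρ ε) 0 := by
    unfold γc
    have h1 : ContinuousAt (fun ε : ℝ => (1 + ε) ^ 8 / (1 - ε) ^ 4) 0 := by
      apply ContinuousAt.div (by fun_prop) (by fun_prop)
      norm_num
    have h2 : ContinuousAt (fun ε : ℝ =>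
        (Q.I1 + ε) ^ 4 * ((1 / 3 + ε) * (Q.I2 + ε) ^ (M - 2))) 0 := by fun_prop
    exact (continuousAt_const.mul h1).mul h2
  have hc1 : ContinuousAt (fun ε : ℝ => (y * (1 + ε) + ε) * Ac Q M ε) 0 :=
    ContinuousAt.mul (by fun_prop) hcA.continuousAt
  have hc2 : ContinuousAt (fun ε : ℝ => (M : ℝ) * (ρ * βc Q M ε) - M * R * γc Q M ρ ε) 0 :=
    (continuousAt_const.mul (continuousAt_const.mul hcβ.continuousAt)).sub
      (continuousAt_const.mul hcγ)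
  have hev : ∀ᶠ ε : ℝ in 𝓝 0, (y * (1 + ε) + ε) * Ac Q M ε <
      (M : ℝ) * (ρ * βc Q M ε) - M * R * γc Q M ρ ε :=
    hc1.tendsto.eventually_lt hc2.tendsto hb
  have hev1 : ∀ᶠ ε : ℝ in 𝓝 0, ε < 1 / 3 := gt_mem_nhds (by norm_num)
  have hev2 : ∀ᶠ ε : ℝ in 𝓝 0, ε < Q.I1 := gt_mem_nhds hI1
  have hev3 : ∀ᶠ ε : ℝ in 𝓝 0, ε < Q.I2 := gt_mem_nhds hI2
  have hev4 : ∀ᶠ ε : ℝ in 𝓝 0, 0 < Br Q M ε := by
    have := hcB.tendsto (0 : ℝ)
    exact this.eventually (lt_mem_nhds hB)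
  have hall := ((hev.and (hev1.and (hev2.and (hev3.and hev4)))).filter_mono
    (nhdsWithin_le_nhds (s := Set.Ioi (0 : ℝ)))).and (self_mem_nhdsWithin (s := Set.Ioi (0 : ℝ)))
  obtain ⟨ε, ⟨h1, h2, h3, h4, h5⟩, h6⟩ := hall.exists
  exact ⟨Q, ρ, ε, hρ, hρ1, h6, h2, h3, h4, h5, h1⟩

end Pool.Agent.Helper274_OB
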