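import Mathlib
import Pool.Agent.Helper274_OB.CoreW
import Pool.Agent.TH779.Shat.Trace
import Pool.Agent.H362R2.CM.Final

/-! Exact patterns of primes among prescribed shifts, with weights on the pairs
(cf. `Pool.Agent.TH779.Ord.Exact`, helper779). -/

set_option autoImplicit false

namespace Pool.Agent.Helper274_OB

open Finset

theorem Fw_image {ι κ : Type*} [DecidableEq ι] [DecidableEq κ] (f : ι → κ)
    (hf : Function.Injective f) (w : κ → κ → ℝ) (S : Finset ι) :
    Fw w (S.image f) = Fw (fun i j => w (f i) (f j)) S := by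
  unfold Fw
  rw [card_image_of_injective _ hf, sum_image (fun x _ y _ h => hf h)]
  congr 1
  refine sum_congr rfl fun i _ => ?_
  have h1 : (S.image f).filter (fun j => f i ≠ j) = (S.filter (fun j => i ≠ j)).image f := by
    ext x
    simp only [mem_filter, mem_image]
    constructor
    · rintro ⟨⟨j, hj, rfl⟩, h⟩
      exact ⟨j, ⟨hj, fun e => h (by rw [e])⟩, rfl⟩
    · rintro ⟨j, ⟨hj, h⟩, rfl⟩
      exact ⟨⟨j, hj, rfl⟩, fun e => h (hf e)⟩
  rw [h1, sum_image (fun x _ y _ h => hf h)]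

/-- natural forms, indexed by natural numbers -/
theorem few_natW (z : ℝ) (hz : 1 ≤ z) :
    ∃ M0 : ℕ, 2 ≤ M0 ∧ ∀ M : ℕ, M0 ≤ M → ∀ R : ℝ, 0 ≤ R → 32 * z * R ≤ M →
      ∀ w : ℕ → ℕ → ℝ, (∀ i j, 0 ≤ w i j) →
      (∀ x < M, ∑ y ∈ (range M).filter (fun y => x ≠ y), w x y ≤ R) →
      ∀ (a b : ℕ → ℕ), (∀ x < M, 1 ≤ a x) →
      (∀ x < M, ∀ y < M, a x = a y → b x = b y → x = y) →
      (∀ p : ℕ, p.Prime → ∃ n : ℕ, ∀ x < M, ¬ p ∣ a x * n + b x) →
      ∀ N0 : ℕ, ∃ n, N0 < n ∧ z / 2 ≤ Fw w ((range M).filter (fun x => (a x * n + b x).Prime)) := by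
  classical
  obtain ⟨M0, hM02, hcore⟩ := core_fewW z hz
  refine ⟨M0, hM02, ?_⟩
  intro M hM R hR hzR w hw hrow a b ha hinj hadm N0
  set A : Fin M → ℕ := fun i => a i with hA
  obtain ⟨N, b', hbz, hb1, hnp, hadm'⟩ := Pool.Agent.H362R2.CM.shift_forms A (fun i => (b i : ℤ))
    (fun i => ha i i.2)
    (by
      intro i j hij
      simp only [Prod.mk.injEq] at hij
      exact Fin.ext (hinj i i.2 j j.2 hij.1 (by exact_mod_cast hij.2)))
    (by
      intro p hp
      obtain ⟨n, hn⟩ := hadm p hp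
      refine ⟨n, fun i h => hn i i.2 ?_⟩
      exact_mod_cast h)
  have hb' : ∀ i, b' i = A i * N + b i := by
    intro i
    have := hbz i
    exact_mod_cast this
  have hval : Function.Injective (fun i : Fin M => (i : ℕ)) := Fin.val_injective
  obtain ⟨n, hn1, hn2⟩ := hcore M hM R hR hzR (fun i j => w i j) (fun i j => hw i j)
    (by
      intro i
      refine le_trans (le_of_eq ?_) (hrow i i.2)
      have h1 : (range M).filter (fun y => (i : ℕ) ≠ y) =
          (univ.filter (fun j : Fin M => i ≠ j)).image (fun j : Fin M => (j : ℕ)) := by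
        ext y
        simp only [mem_filter, mem_range, mem_image, mem_univ, true_and]
        constructor
        · rintro ⟨hy, h⟩
          exact ⟨⟨y, hy⟩, fun e => h (by rw [e]), rfl⟩
        · rintro ⟨j, hj, rfl⟩
          exact ⟨j.2, fun e => hj (Fin.ext e)⟩
      rw [h1, sum_image (fun x _ y _ h => hval h)])
    A b' (fun i => ha i i.2) hb1 hnp hadm' N0
  refine ⟨n + N, by omega, hn2.trans (le_of_eq ?_)⟩
  have h1 := Fw_image (fun i : Fin M => (i : ℕ)) hval w
    (univ.filter (fun i : Fin M => (A i * n + b' i).Prime))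
  rw [← h1]
  congr 1
  ext x
  simp only [mem_filter, mem_range, mem_image, mem_univ, true_and]
  constructor
  · rintro ⟨i, hi, rfl⟩
    refine ⟨i.2, ?_⟩
    have h3 : a i * (n + N) + b i = A i * n + b' i := by
      rw [hb' i, hA]; ring
    rw [h3]
    exact hi
  · rintro ⟨hx, h3⟩
    refine ⟨⟨x, hx⟩, ?_, rfl⟩
    have h4 : A ⟨x, hx⟩ * n + b' ⟨x, hx⟩ = a x * (n + N) + b x := by
      rw [hb', hA]; ring
    rw [h4]
    exact h3

/-- exact patterns among prescribed shifts `q h x`, `x < M`, in one class modulo `q` -/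
theorem exact_fewW (z : ℝ) (hz : 1 ≤ z) :
    ∃ M0 : ℕ, 2 ≤ M0 ∧ ∀ M : ℕ, M0 ≤ M → ∀ R : ℝ, 0 ≤ R → 32 * z * R ≤ M →
      ∀ w : ℕ → ℕ → ℝ, (∀ i j, 0 ≤ w i j) →
      (∀ x < M, ∑ y ∈ (range M).filter (fun y => x ≠ y), w x y ≤ R) →
      ∀ (q a : ℕ), 1 ≤ q → Nat.Coprime a q → ∀ h : ℕ → ℕ,
      (∀ x < M, ∀ y < M, h x = h y → x = y) →
      (∀ p : ℕ, p.Prime → ∃ r : ℕ, ∀ x < M, ¬ p ∣ r + h x) →
      ∃ J : Finset ℕ, (∀ x ∈ J, x < M) ∧ z / 2 ≤ Fw w J ∧
        {n : ℕ | n ≡ a [MOD q] ∧ (∀ x ∈ J, (n + q * h x).Prime) ∧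
          ∀ y : ℕ, (∃ x < M, y ≤ q * h x) → (n + y).Prime → ∃ x ∈ J, y = q * h x}.Infinite := by
  classical
  obtain ⟨M0, hM02, hmain⟩ := few_natW z hz
  refine ⟨M0, hM02, ?_⟩
  intro M hM R hR hzR w hw hrow q a hq haq h hinj hadm
  have hmain := hmain M hM R hR hzR w hw hrow
  set D := (range M).sup h with hD
  have hxD : ∀ x < M, h x ≤ D := fun x hx => le_sup (f := h) (mem_range.2 hx)
  -- forms for all the positions
  set ι := Fin (q * D + 1) with hι
  set S : Finset ι := univ.filter (fun j => ∃ x < M, q * h x = (j : ℕ)) with hS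
  obtain ⟨W, ν, hW, hE, hSp⟩ := Pool.Agent.TH779.Shat.congruences (fun _ : ι => q)
    (fun j : ι => a + (j : ℕ)) (fun _ => hq)
    (by
      intro i j hij h1
      have h2 := Nat.eq_of_mul_eq_mul_left hq h1
      exact hij (Fin.ext (by omega))) S Sᶜ disjoint_compl_left
  have hpos : ∀ x, x < M → q * h x < q * D + 1 := fun x hx => by
    have := Nat.mul_le_mul_left q (hxD x hx)
    omega
  have hfew := hmain (fun _ => q * W) (fun x => q * ν + (a + q * h x))
    (fun _ _ => Nat.mul_pos hq hW)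
    (by
      intro x hx y hy _ h2
      apply hinj x hx y hy
      have h3 : q * h x = q * h y := by
        have h2' : q * ν + (a + q * h x) = q * ν + (a + q * h y) := h2
        omega
      exact Nat.eq_of_mul_eq_mul_left hq h3)
    (by
      intro p hp
      by_cases hpW : p ∣ q * W
      · refine ⟨0, fun x hx hd => ?_⟩
        rw [mul_zero, zero_add] at hd
        rcases (Nat.Prime.dvd_mul hp).1 hpW with h1 | h1
        · have h2 : p ∣ a := by
            have h3 : p ∣ q * ν := h1.mul_right _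
            have h4 : p ∣ a + q * h x := (Nat.dvd_add_right h3).1 hd
            exact (Nat.dvd_add_left (h1.mul_right _)).1 h4
          have h3 : p ∣ 1 := by
            rw [← haq]
            exact Nat.dvd_gcd h2 h1
          exact hp.one_lt.ne' (Nat.dvd_one.1 h3)
        · exact hSp p hp h1 ⟨q * h x, hpos x hx⟩ (by
            rw [hS, mem_filter]
            exact ⟨mem_univ _, x, hx, rfl⟩) hd
      · obtain ⟨r, hr⟩ := hadm p hp
        have : Fact p.Prime := ⟨hp⟩
        have hpq : ¬ p ∣ q := fun h => hpW (h.mul_right _)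
        have hpW' : ¬ p ∣ W := fun h => hpW (h.mul_left _)
        have hqZ : (q : ZMod p) ≠ 0 := fun h => hpq ((ZMod.natCast_eq_zero_iff _ _).1 h)
        have hWZ : (W : ZMod p) ≠ 0 := fun h => hpW' ((ZMod.natCast_eq_zero_iff _ _).1 h)
        refine ⟨(((r : ZMod p) - a / q - ν) / W).val, fun x hx hd => ?_⟩
        rw [← ZMod.natCast_eq_zero_iff] at hd
        push_cast at hd
        rw [ZMod.natCast_zmod_val] at hd
        apply hr x hx
        rw [← ZMod.natCast_eq_zero_iff]
        push_cast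
        have h1 : (q : ZMod p) * ((r : ZMod p) + h x) = 0 := by
          rw [← hd]
          field_simp
          ring
        exact (mul_eq_zero.1 h1).resolve_left hqZ)
  -- the pattern at `t`
  set Jt : ℕ → Finset ℕ := fun t =>
    (range M).filter (fun x => (q * W * t + (q * ν + (a + q * h x))).Prime) with hJt
  set Sset : Set ℕ := {t : ℕ | 2 ≤ t ∧ z / 2 ≤ Fw w (Jt t)} with hSset
  have hinf : Sset.Infinite := by
    rw [Set.infinite_iff_exists_gt]
    intro N0
    obtain ⟨t, ht1, ht2⟩ := hfew (N0 + 2)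
    exact ⟨t, ⟨by omega, ht2⟩, by omega⟩
  have hcover : Sset ⊆ ⋃ J : Set.Elem (((range M).powerset : Finset (Finset ℕ)) : Set (Finset ℕ)),
      {t ∈ Sset | Jt t = J.1} := by
    intro t ht
    rw [Set.mem_iUnion]
    refine ⟨⟨Jt t, ?_⟩, ht, rfl⟩
    rw [mem_coe, mem_powerset]
    exact filter_subset _ _
  have : ∃ J : Finset ℕ, {t ∈ Sset | Jt t = J}.Infinite := by
    by_contra hcon
    push Not at hcon
    apply hinf
    apply Set.Finite.subset _ hcover
    exact Set.finite_iUnion (fun J => hcon J.1)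
  obtain ⟨J, hJ⟩ := this
  obtain ⟨t₀, ht₀⟩ := hJ.nonempty
  have hJM : ∀ x ∈ J, x < M := by
    intro x hx
    rw [← ht₀.2, hJt] at hx
    exact mem_range.1 (mem_filter.1 hx).1
  refine ⟨J, hJM, ?_, ?_⟩
  · have := ht₀.1.2
    rw [ht₀.2] at this
    exact this
  · have hinj' : Set.InjOn (fun t : ℕ => q * W * t + (q * ν + a)) {t ∈ Sset | Jt t = J} := by
      intro t _ t' _ e
      have e' : q * W * t = q * W * t' := by
        simp only at e
        omega
      exact Nat.eq_of_mul_eq_mul_left (Nat.mul_pos hq hW) e'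
    apply (hJ.image hinj').mono
    rintro _ ⟨t, ⟨ht1, ht2⟩, rfl⟩
    refine ⟨?_, ?_, ?_⟩
    · have h1 : q * W * t + (q * ν + a) = a + q * (W * t + ν) := by ring
      simp only
      rw [h1]
      exact (Nat.modEq_iff_dvd' (by omega)).2 ⟨W * t + ν, by omega⟩ |>.symm
    · intro x hx
      rw [← ht2, hJt, mem_filter] at hx
      have h1 : q * W * t + (q * ν + a) + q * h x = q * W * t + (q * ν + (a + q * h x)) := by ring
      simp only
      rw [h1]
      exact hx.2
    · rintro y ⟨x, hx, hy⟩ hp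
      simp only at hp
      have hyD : y < q * D + 1 := hy.trans_lt (hpos x hx)
      by_cases hyS : (⟨y, hyD⟩ : ι) ∈ S
      · rw [hS, mem_filter] at hyS
        obtain ⟨-, x', hx', he⟩ := hyS
        simp only at he
        refine ⟨x', ?_, he.symm⟩
        rw [← ht2, hJt, mem_filter, mem_range]
        refine ⟨hx', ?_⟩
        rw [he]
        have h1 : q * W * t + (q * ν + a) + y = q * W * t + (q * ν + (a + y)) := by ring
        rw [← h1]
        exact hp
      · exfalso
        obtain ⟨p, hp1, hp2, hp3⟩ := hE ⟨y, hyD⟩ (mem_compl.2 hyS)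
        have h1 : p ∣ q * W * t + (q * ν + a) + y := by
          have h2 : q * W * t + (q * ν + a) + y = W * (q * t) + (q * ν + (a + y)) := by ring
          rw [h2]
          exact dvd_add (hp2.mul_right _) hp3
        have h2 : p = q * W * t + (q * ν + a) + y := (Nat.prime_dvd_prime_iff_eq hp1 hp).1 h1
        have h3 : p ≤ W := Nat.le_of_dvd hW hp2
        have h4 : 2 ≤ t := ht1.1
        have h5 : W * 2 ≤ q * W * t := by
          calc W * 2 ≤ W * t := Nat.mul_le_mul_left _ h4
            _ = 1 * W * t := by ring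
            _ ≤ q * W * t := Nat.mul_le_mul_right _ (Nat.mul_le_mul_right _ hq)
        omega

end Pool.Agent.Helper274_OB
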