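import Mathlib
import Pool.Agent.Helper274_OB.ExactX
import Pool.Agent.TH779.Ord.Block

/-! Realised patterns of small weight in an admissible set. -/

set_option autoImplicit false

namespace Pool.Agent.Helper274_OB

open Finset
open Pool.Agent.TH779.Ord (el el_mem el_lt el_surj)

/-- there are infinitely many `n ≡ a (mod q)` for which the numbers `n + h`, `h ∈ H`, are consecutive primes -/
def Real' (q a : ℕ) (H : Finset ℕ) : Prop :=
  {n : ℕ | n ≡ a [MOD q] ∧ (∀ h ∈ H, (n + h).Prime) ∧
    ∀ y : ℕ, (∃ h ∈ H, h ≤ y) → (∃ h ∈ H, y ≤ h) → (n + y).Prime → y ∈ H}.Infinite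

/-- the main step, with a factor `lam` -/
theorem pat_lam (m : ℕ) (hm : 1 ≤ m) (V : Finset ℕ)
    (hV : 4900 * Real.exp (690 * m) ≤ V.card)
    (hadm : ∀ p : ℕ, p.Prime → ∃ r : ℕ, ∀ v ∈ V, ¬ p ∣ r + v) (q a : ℕ) (hq : 1 ≤ q)
    (haq : ∀ v ∈ V, Nat.Coprime (a + v) q) (w : ℕ → ℕ → ℝ) (hw : ∀ u v, 0 ≤ w u v) (R lam : ℝ)
    (hR0 : 0 ≤ R) (hR : ∑ u ∈ V, ∑ v ∈ V.erase u, w u v ≤ V.card * R) (hlam : 0 < lam)
    (hlR : 17 * m * (lam * R) ≤ V.card) :
    ∃ H ⊆ V, H.card = m ∧ Real' q a H ∧ lam * ∑ u ∈ H, ∑ v ∈ H.erase u, w u v ≤ m := by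
  classical
  set M := V.card with hM
  have hm1 : (1 : ℝ) ≤ m := by exact_mod_cast hm
  set h : ℕ → ℕ := fun x => el V x with hh
  have hmono : ∀ x y, x < y → y < M → h x < h y := fun x y hxy hy => el_lt V hxy hy
  have hinj : ∀ x < M, ∀ y < M, h x = h y → x = y := by
    intro x hx y hy e
    rcases lt_trichotomy x y with h1 | h1 | h1
    · have := hmono x y h1 hy; omega
    · exact h1
    · have := hmono y x h1 hx; omega
  have hhV : ∀ x < M, h x ∈ V := fun x hx => el_mem V hx
  have hVimg : (range M).image h = V := by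
    apply eq_of_subset_of_card_le
    · intro v hv
      obtain ⟨x, hx, rfl⟩ := mem_image.1 hv
      exact hhV x (mem_range.1 hx)
    · rw [card_image_of_injOn, card_range]
      intro x hx y hy e
      rw [mem_coe, mem_range] at hx hy
      exact hinj x hx y hy e
  have hrow : ∑ x ∈ range M, ∑ y ∈ (range M).filter (fun y => x ≠ y), lam * w (h x) (h y) ≤
      M * (lam * R) := by
    have h0 : ∑ x ∈ range M, ∑ y ∈ (range M).filter (fun y => x ≠ y), lam * w (h x) (h y) =
        lam * ∑ u ∈ V, ∑ v ∈ V.erase u, w u v := by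
      rw [mul_sum]
      conv_rhs => rw [← hVimg]
      rw [sum_image (fun x hx y hy e => hinj x (mem_range.1 hx) y (mem_range.1 hy) e)]
      refine sum_congr rfl fun x hx => ?_
      rw [mem_range] at hx
      rw [mul_sum, hVimg]
      have h1 : V.erase (h x) = ((range M).filter (fun y => x ≠ y)).image h := by
        ext v
        rw [mem_erase, mem_image]
        constructor
        · rintro ⟨hv1, hv2⟩
          rw [← hVimg] at hv2
          obtain ⟨y, hy, rfl⟩ := mem_image.1 hv2
          exact ⟨y, mem_filter.2 ⟨hy, fun e => hv1 (by rw [e])⟩, rfl⟩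
        · rintro ⟨y, hy, rfl⟩
          rw [mem_filter, mem_range] at hy
          exact ⟨fun e => hy.2 (hinj y hy.1 x hx e).symm, hhV y hy.1⟩
      rw [h1, sum_image]
      intro y hy y' hy' e
      rw [mem_coe, mem_filter, mem_range] at hy hy'
      exact hinj y hy.1 y' hy'.1 e
    rw [h0]
    calc lam * ∑ u ∈ V, ∑ v ∈ V.erase u, w u v ≤ lam * (V.card * R) :=
          mul_le_mul_of_nonneg_left hR hlam.le
      _ = M * (lam * R) := by ring
  obtain ⟨J, hJM, hJF, hJinf⟩ := exact_fewX m hm1 M hV (lam * R) (by positivity) hlR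
    (fun x y => lam * w (h x) (h y)) (fun x y => mul_nonneg hlam.le (hw _ _)) hrow q a hq h
    (fun x hx => haq _ (hhV x hx)) hinj (by
      intro p hp
      obtain ⟨r, hr⟩ := hadm p hp
      exact ⟨r, fun x hx => hr _ (hhV x hx)⟩)
  set t := J.card with ht
  set c : ℕ → ℕ := fun e => h (el J e) with hc
  have hclt : ∀ e e', e < e' → e' < t → c e < c e' := by
    intro e e' he he'
    exact hmono _ _ (el_lt J he he') (hJM _ (el_mem J he'))
  have hcinj : ∀ e < t, ∀ e' < t, c e = c e' → e = e' := by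
    intro e he e' he' h1
    rcases lt_trichotomy e e' with h2 | h2 | h2
    · have := hclt e e' h2 he'; omega
    · exact h2
    · have := hclt e' e h2 he; omega
  set G : ℕ → ℝ := fun e => ∑ y ∈ J.filter (fun y => el J e ≠ y), w (h (el J e)) (h y) with hG
  have hG0 : ∀ e, 0 ≤ G e := fun e => sum_nonneg fun y _ => hw _ _
  have hF : (m : ℝ) ≤ t - lam * ∑ x ∈ J, ∑ y ∈ J.filter (fun y => x ≠ y), w (h x) (h y) := by
    unfold Fw at hJF
    rw [mul_sum]
    refine hJF.trans (le_of_eq ?_)
    congr 1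
    refine sum_congr rfl fun x _ => ?_
    rw [mul_sum]
  have hW0 : 0 ≤ ∑ x ∈ J, ∑ y ∈ J.filter (fun y => x ≠ y), w (h x) (h y) :=
    sum_nonneg fun x _ => sum_nonneg fun y _ => hw _ _
  have htm : m ≤ t := by
    have : (m : ℝ) ≤ t := by
      have := mul_nonneg hlam.le hW0
      linarith
    exact_mod_cast this
  -- blocks
  set r := t / m with hr
  have hr1 : 1 ≤ r := by
    rw [hr]
    exact (Nat.one_le_div_iff (by omega)).2 htm
  have hr2 : r * m ≤ t := Nat.div_mul_le_self _ _
  have hr3 : t < r * m + m := by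
    rw [hr]
    exact Nat.lt_div_mul_add (a := t) (b := m) (by omega)
  obtain ⟨b, hb, hmin⟩ := exists_min_image (range r)
    (fun b => ∑ e ∈ range m, G (b * m + e)) ⟨0, mem_range.2 (by omega)⟩
  rw [mem_range] at hb
  have hbt : b * m + m ≤ t := by
    have : (b + 1) * m ≤ r * m := Nat.mul_le_mul_right m hb
    rw [add_mul, one_mul] at this
    omega
  have hsumG : (r : ℝ) * ∑ e ∈ range m, G (b * m + e) ≤
      ∑ x ∈ J, ∑ y ∈ J.filter (fun y => x ≠ y), w (h x) (h y) := by
    have h3 := card_nsmul_le_sum (range r) (fun b' => ∑ e ∈ range m, G (b' * m + e)) _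
      (fun b' hb' => hmin b' hb')
    rw [card_range, nsmul_eq_mul] at h3
    have h4 : ∀ r' : ℕ, ∑ b' ∈ range r', ∑ e ∈ range m, G (b' * m + e) = ∑ e ∈ range (r' * m), G e := by
      intro r'
      induction r' with
      | zero => simp
      | succ r' ih =>
        rw [sum_range_succ, ih, add_mul, one_mul, sum_range_add]
    rw [h4] at h3
    refine h3.trans ?_
    calc ∑ e ∈ range (r * m), G e ≤ ∑ e ∈ range t, G e :=
          sum_le_sum_of_subset_of_nonneg (range_subset_range.2 hr2) (fun e _ _ => hG0 e)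
      _ = ∑ x ∈ (range t).image (fun e => el J e), ∑ y ∈ J.filter (fun y => x ≠ y), w (h x) (h y) := by
          rw [sum_image]
          intro e he e' he' h1
          rw [mem_coe, mem_range] at he he'
          apply hcinj e he e' he'
          show h (el J e) = h (el J e')
          have h1' : el J e = el J e' := h1
          rw [h1']
      _ ≤ _ := by
          apply sum_le_sum_of_subset_of_nonneg
          · intro x hx
            obtain ⟨e, he, rfl⟩ := mem_image.1 hx
            rw [mem_range] at he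
            exact el_mem J he
          · intro x _ _
            exact sum_nonneg fun y _ => hw _ _
  have hblock : lam * ∑ e ∈ range m, G (b * m + e) ≤ m := by
    have hr0 : (0 : ℝ) < r := by exact_mod_cast hr1
    have h3 : (t : ℝ) ≤ r * m + m := by exact_mod_cast hr3.le
    have h4 : (r : ℝ) * (lam * ∑ e ∈ range m, G (b * m + e)) ≤ r * m := by
      calc (r : ℝ) * (lam * ∑ e ∈ range m, G (b * m + e))
          = lam * (r * ∑ e ∈ range m, G (b * m + e)) := by ring
        _ ≤ lam * ∑ x ∈ J, ∑ y ∈ J.filter (fun y => x ≠ y), w (h x) (h y) :=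
            mul_le_mul_of_nonneg_left hsumG hlam.le
        _ ≤ r * m := by linarith
    exact le_of_mul_le_mul_left h4 hr0
  set H : Finset ℕ := (range m).image (fun e => c (b * m + e)) with hH
  have hinjH : Set.InjOn (fun e => c (b * m + e)) (range m : Finset ℕ) := by
    intro e he e' he' h1
    rw [mem_coe, mem_range] at he he'
    have := hcinj _ (by omega) _ (by omega) h1
    omega
  refine ⟨H, ?_, ?_, ?_, ?_⟩
  · intro u hu
    obtain ⟨e, he, rfl⟩ := mem_image.1 hu
    rw [mem_range] at he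
    exact hhV _ (hJM _ (el_mem J (by omega)))
  · rw [hH, card_image_of_injOn hinjH, card_range]
  · unfold Real'
    apply hJinf.mono
    rintro n ⟨hn1, hn2, hn3⟩
    refine ⟨hn1, ?_, ?_⟩
    · intro u hu
      obtain ⟨e, he, rfl⟩ := mem_image.1 hu
      rw [mem_range] at he
      exact hn2 _ (el_mem J (by omega))
    · rintro y ⟨u, hu, huy⟩ ⟨v, hv, hyv⟩ hy
      obtain ⟨i, hi, rfl⟩ := mem_image.1 hu
      obtain ⟨j, hj, rfl⟩ := mem_image.1 hv
      rw [mem_range] at hi hj
      obtain ⟨x, hx, hyx⟩ := hn3 y ⟨el J (b * m + j), hJM _ (el_mem J (by omega)), hyv⟩ hy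
      obtain ⟨e, he, hex⟩ := el_surj J hx
      have hye : y = c e := by rw [hyx, ← hex]
      rw [hye] at huy hyv ⊢
      have h1 : b * m + i ≤ e := by
        by_contra hcon
        push Not at hcon
        have := hclt e (b * m + i) hcon (by omega)
        have h2 : c (b * m + i) ≤ c e := huy
        omega
      have h2 : e ≤ b * m + j := by
        by_contra hcon
        push Not at hcon
        have := hclt (b * m + j) e hcon he
        have h2 : c e ≤ c (b * m + j) := hyv
        omega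
      refine mem_image.2 ⟨e - b * m, mem_range.2 (by omega), ?_⟩
      show c (b * m + (e - b * m)) = c e
      rw [Nat.add_sub_cancel' (by omega)]
  · refine le_trans (mul_le_mul_of_nonneg_left ?_ hlam.le) hblock
    rw [hH, sum_image hinjH]
    apply sum_le_sum
    intro i hi
    rw [mem_range] at hi
    have h1 : ((range m).image (fun e => c (b * m + e))).erase (c (b * m + i)) ⊆
        (J.filter (fun y => el J (b * m + i) ≠ y)).image h := by
      intro v hv
      rw [mem_erase] at hv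
      obtain ⟨hv1, hv2⟩ := hv
      obtain ⟨j, hj, rfl⟩ := mem_image.1 hv2
      rw [mem_range] at hj
      refine mem_image.2 ⟨el J (b * m + j), mem_filter.2 ⟨el_mem J (by omega), fun h2 => hv1 ?_⟩, rfl⟩
      show h (el J (b * m + j)) = h (el J (b * m + i))
      rw [h2]
    refine (sum_le_sum_of_subset_of_nonneg h1 (fun v _ _ => hw _ _)).trans (le_of_eq ?_)
    rw [sum_image]
    intro y hy y' hy' e
    rw [mem_coe, mem_filter] at hy hy'
    exact hinj y (hJM y hy.1) y' (hJM y' hy'.1) e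

/-- realised patterns of small weight -/
theorem pat_weight (m : ℕ) (hm : 1 ≤ m) (V : Finset ℕ) (hV : 700 * m ≤ Real.log V.card)
    (hadm : ∀ p : ℕ, p.Prime → ∃ r : ℕ, ∀ v ∈ V, ¬ p ∣ r + v) (q a : ℕ) (hq : 1 ≤ q)
    (haq : ∀ v ∈ V, Nat.Coprime (a + v) q) (w : ℕ → ℕ → ℝ) (hw : ∀ u v, 0 ≤ w u v) :
    ∃ H ⊆ V, H.card = m ∧ Real' q a H ∧ ∑ u ∈ H, ∑ v ∈ H.erase u, w u v ≤
      17 * m ^ 2 / V.card ^ 2 * ∑ u ∈ V, ∑ v ∈ V.erase u, w u v := by
  classical
  have hm1 : (1 : ℝ) ≤ m := by exact_mod_cast hm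
  have hVpos : (0 : ℝ) < V.card := by
    by_contra hcon
    have h1 : V.card = 0 := by
      have : (V.card : ℝ) ≤ 0 := not_lt.1 hcon
      exact_mod_cast le_antisymm this (Nat.cast_nonneg _)
    rw [h1, Nat.cast_zero, Real.log_zero] at hV
    linarith
  have hVc : 4900 * Real.exp (690 * m) ≤ V.card := by
    have h1 : Real.exp (700 * m) ≤ V.card := by
      rw [← Real.exp_log hVpos]
      exact Real.exp_le_exp.2 hV
    have h2 : (4900 : ℝ) ≤ Real.exp 10 := by
      have h3 : (2.7 : ℝ) ≤ Real.exp 1 := by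
        have := Real.exp_one_gt_d9; linarith
      calc (4900 : ℝ) ≤ 2.7 ^ 10 := by norm_num
        _ ≤ (Real.exp 1) ^ 10 := pow_le_pow_left₀ (by norm_num) h3 10
        _ = Real.exp 10 := by rw [← Real.exp_nat_mul]; norm_num
    have h3 : (4900 : ℝ) ≤ Real.exp (10 * m) := h2.trans (Real.exp_le_exp.2 (by linarith))
    calc 4900 * Real.exp (690 * m) ≤ Real.exp (10 * m) * Real.exp (690 * m) :=
          mul_le_mul_of_nonneg_right h3 (Real.exp_pos _).le
      _ = Real.exp (700 * m) := by rw [← Real.exp_add]; ring_nf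
      _ ≤ V.card := h1
  obtain ⟨T, hT⟩ : ∃ T : ℝ, T = ∑ u ∈ V, ∑ v ∈ V.erase u, w u v := ⟨_, rfl⟩
  rw [← hT]
  have hT0 : 0 ≤ T := by
    rw [hT]
    exact sum_nonneg fun u _ => sum_nonneg fun v _ => hw u v
  obtain ⟨R, hR0, hTR⟩ : ∃ R : ℝ, 0 ≤ R ∧ T = V.card * R :=
    ⟨T / V.card, by positivity, by rw [mul_div_cancel₀ _ hVpos.ne']⟩
  have hR' : ∑ u ∈ V, ∑ v ∈ V.erase u, w u v ≤ V.card * R := by rw [← hT, hTR]
  rcases hR0.eq_or_lt with h0 | h0
  · obtain ⟨H, hHV, hHm, hHR, -⟩ := pat_lam m hm V hVc hadm q a hq haq w hw R 1 hR0 hR' one_pos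
      (by rw [← h0, mul_zero, mul_zero]; exact hVpos.le)
    refine ⟨H, hHV, hHm, hHR, ?_⟩
    have hT00 : T = 0 := by rw [hTR, ← h0, mul_zero]
    rw [hT00, mul_zero]
    calc ∑ u ∈ H, ∑ v ∈ H.erase u, w u v ≤ ∑ u ∈ V, ∑ v ∈ V.erase u, w u v := by
          refine le_trans (sum_le_sum fun u _ => sum_le_sum_of_subset_of_nonneg
            (erase_subset_erase u hHV) (fun v _ _ => hw u v)) ?_
          exact sum_le_sum_of_subset_of_nonneg hHV (fun u _ _ => sum_nonneg fun v _ => hw u v)
      _ = 0 := by rw [← hT, hT00]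
  · set lam : ℝ := V.card / (17 * m * R) with hlam
    have hlam0 : 0 < lam := by rw [hlam]; positivity
    obtain ⟨H, hHV, hHm, hHR, hHw⟩ := pat_lam m hm V hVc hadm q a hq haq w hw R lam hR0 hR' hlam0
      (by
        rw [hlam]
        apply le_of_eq
        field_simp)
    refine ⟨H, hHV, hHm, hHR, ?_⟩
    have h2 : lam * (17 * m * R) = V.card := by
      rw [hlam]
      field_simp
    have h4 : 17 * (m : ℝ) ^ 2 / V.card ^ 2 * T = 17 * m ^ 2 * R / V.card := by
      rw [hTR]
      field_simp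
    rw [h4, le_div_iff₀ hVpos]
    have h3 : (∑ u ∈ H, ∑ v ∈ H.erase u, w u v) * V.card =
        (lam * ∑ u ∈ H, ∑ v ∈ H.erase u, w u v) * (17 * m * R) := by
      rw [← h2]
      ring
    rw [h3]
    calc (lam * ∑ u ∈ H, ∑ v ∈ H.erase u, w u v) * (17 * m * R) ≤ m * (17 * m * R) :=
          mul_le_mul_of_nonneg_right hHw (by positivity)
      _ = 17 * m ^ 2 * R := by ring

end Pool.Agent.Helper274_OB
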