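import Mathlib
import Pool.Agent.Helper274_OB.PatX

/-! Spread distributions of realised patterns (from the realised patterns of small weight by duality). -/

set_option autoImplicit false

namespace Pool.Agent.Helper274_OB

open Finset

theorem sum_pairs (V : Finset ℕ) (F : ℕ → ℕ → ℝ) :
    ∑ u ∈ V, ∑ v ∈ V.erase u, F u v = ∑ x ∈ V.offDiag, F x.1 x.2 := by
  classical
  have h1 : V.offDiag = (V ×ˢ V).filter (fun x => x.1 ≠ x.2) := by
    ext x
    simp only [mem_offDiag, mem_filter, mem_product]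
    tauto
  rw [h1, sum_filter, sum_product]
  refine sum_congr rfl fun u _ => ?_
  rw [← sum_filter]
  refine sum_congr ?_ fun _ _ => rfl
  ext v
  simp only [mem_erase, mem_filter]
  constructor
  · rintro ⟨h1, h2⟩
    exact ⟨h2, fun e => h1 e.symm⟩
  · rintro ⟨h1, h2⟩
    exact ⟨fun e => h2 e.symm, h1⟩

/-- duality: if for every weight on the pairs of `V` some member of `P` has at most the proportion `c` of the
total weight, then there is a probability distribution on `P` for which every pair has probability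
at most `c` -/
theorem duality (V : Finset ℕ) (P : Finset (Finset ℕ)) (hP : ∀ H ∈ P, H ⊆ V) (c : ℝ)
    (hw : ∀ w : ℕ → ℕ → ℝ, (∀ u v, 0 ≤ w u v) → ∃ H ∈ P, ∑ u ∈ H, ∑ v ∈ H.erase u, w u v ≤
      c * ∑ u ∈ V, ∑ v ∈ V.erase u, w u v) :
    ∃ μ : Finset ℕ → ℝ, (∀ H, 0 ≤ μ H) ∧ (∀ H, μ H ≠ 0 → H ∈ P) ∧ ∑ H ∈ P, μ H = 1 ∧
      ∀ u ∈ V, ∀ v ∈ V, u ≠ v → ∑ H ∈ P.filter (fun H => u ∈ H ∧ v ∈ H), μ H ≤ c := by
  classical
  set χ : P → V.offDiag → ℝ := fun H x => if x.1.1 ∈ H.1 ∧ x.1.2 ∈ H.1 then 1 else 0 with hχ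
  let L : (P → ℝ) →ₗ[ℝ] (V.offDiag → ℝ) :=
    { toFun := fun μ x => ∑ H, μ H * χ H x
      map_add' := by
        intro μ ν
        funext x
        simp only [Pi.add_apply, add_mul, sum_add_distrib]
      map_smul' := by
        intro r μ
        funext x
        simp only [Pi.smul_apply, smul_eq_mul, RingHom.id_apply, mul_sum, mul_assoc] }
  have hL : ∀ μ x, L μ x = ∑ H, μ H * χ H x := fun _ _ => rfl
  set A : Set (V.offDiag → ℝ) := L '' stdSimplex ℝ P with hA
  set B : Set (V.offDiag → ℝ) := {x | ∀ i, x i ≤ c} with hB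
  have hAc : Convex ℝ A := (convex_stdSimplex ℝ P).linear_image L
  have hAk : IsCompact A := (isCompact_stdSimplex ℝ P).image L.continuous_of_finiteDimensional
  have hBc : Convex ℝ B := by
    intro x hx y hy s t hs ht hst i
    simp only [Pi.add_apply, Pi.smul_apply, smul_eq_mul]
    calc s * x i + t * y i ≤ s * c + t * c :=
          add_le_add (mul_le_mul_of_nonneg_left (hx i) hs) (mul_le_mul_of_nonneg_left (hy i) ht)
      _ = c := by rw [← add_mul, hst, one_mul]
  have hBk : IsClosed B := by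
    rw [hB, Set.ofPred_forall]
    exact isClosed_iInter fun i => isClosed_le (continuous_apply i) continuous_const
  have key : ¬ Disjoint A B := by
    intro hdis
    obtain ⟨f, s, t, hfA, hst, hfB⟩ := geometric_hahn_banach_compact_closed hAc hAk hBc hBk hdis
    have hf : ∀ x : V.offDiag → ℝ, f x = ∑ i, x i * f (fun j => if i = j then 1 else 0) := by
      intro x
      have := LinearMap.pi_apply_eq_sum_univ (f : (V.offDiag → ℝ) →ₗ[ℝ] ℝ) x
      simpa [smul_eq_mul] using this
    have hcB : (fun _ => c : V.offDiag → ℝ) ∈ B := fun _ => le_rfl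
    have hneg : ∀ i, f (fun j => if i = j then 1 else 0) ≤ 0 := by
      intro i
      by_contra hcon
      push Not at hcon
      set N : ℝ := (f (fun _ => c) - t) / f (fun j => if i = j then 1 else 0) with hN
      have hN0 : 0 ≤ N := div_nonneg (by have := hfB _ hcB; linarith) hcon.le
      have hb : ((fun _ => c) - N • (fun j => if i = j then (1 : ℝ) else 0) : V.offDiag → ℝ) ∈ B := by
        intro j
        simp only [Pi.sub_apply, Pi.smul_apply, smul_eq_mul]
        have : 0 ≤ N * (if i = j then (1 : ℝ) else 0) := by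
          split_ifs <;> simp [hN0]
        linarith
      have h1 := hfB _ hb
      rw [map_sub, map_smul, smul_eq_mul] at h1
      have h2 : N * f (fun j => if i = j then (1 : ℝ) else 0) = f (fun _ => c) - t := by
        rw [hN]
        field_simp
      rw [h2] at h1
      linarith
    set w : ℕ → ℕ → ℝ := fun u v => if h : (u, v) ∈ V.offDiag then
      -f (fun j => if (⟨(u, v), h⟩ : V.offDiag) = j then 1 else 0) else 0 with hwdef
    have hw0 : ∀ u v, 0 ≤ w u v := by
      intro u v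
      rw [hwdef]
      simp only
      split_ifs with h
      · have := hneg ⟨(u, v), h⟩
        linarith
      · exact le_rfl
    have hwe : ∀ i : V.offDiag, w i.1.1 i.1.2 = -f (fun j => if i = j then 1 else 0) := by
      intro i
      rw [hwdef]
      simp only
      rw [dif_pos i.2]
    obtain ⟨H, hH, hle⟩ := hw w hw0
    have htot : ∑ u ∈ V, ∑ v ∈ V.erase u, w u v = -∑ i : V.offDiag, f (fun j => if i = j then 1 else 0) := by
      rw [sum_pairs, ← sum_coe_sort V.offDiag (fun x => w x.1 x.2), ← sum_neg_distrib]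
      exact sum_congr rfl fun i _ => hwe i
    have hHsum : ∑ u ∈ H, ∑ v ∈ H.erase u, w u v = -f (χ ⟨H, hH⟩) := by
      rw [hf, sum_pairs, ← sum_neg_distrib]
      have h1 : H.offDiag = V.offDiag.filter (fun x => x.1 ∈ H ∧ x.2 ∈ H) := by
        ext x
        simp only [mem_offDiag, mem_filter]
        constructor
        · rintro ⟨h1, h2, h3⟩
          exact ⟨⟨hP H hH h1, hP H hH h2, h3⟩, h1, h2⟩
        · rintro ⟨⟨_, _, h3⟩, h1, h2⟩
          exact ⟨h1, h2, h3⟩
      rw [h1, sum_filter, ← sum_coe_sort V.offDiag (fun x => if x.1 ∈ H ∧ x.2 ∈ H then w x.1 x.2 else 0)]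
      refine sum_congr rfl fun i _ => ?_
      rw [hχ]
      simp only
      rw [hwe i]
      split_ifs
      · rw [one_mul]
      · rw [zero_mul, neg_zero]
    have h1 : f (χ ⟨H, hH⟩) < s := by
      apply hfA
      refine ⟨fun H' => if (⟨H, hH⟩ : P) = H' then 1 else 0, ?_, ?_⟩
      · refine ⟨fun H' => by dsimp only; split_ifs <;> norm_num, ?_⟩
        simp
      · funext x
        rw [hL]
        simp
    have h2 : t < f (fun _ => c) := hfB _ hcB
    have h3 : f (fun _ => c) = c * ∑ i : V.offDiag, f (fun j => if i = j then 1 else 0) := by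
      rw [hf, mul_sum]
    rw [htot, hHsum] at hle
    rw [h3] at h2
    linarith
  rw [Set.not_disjoint_iff] at key
  obtain ⟨x, ⟨μ₀, ⟨hμ0, hμ1⟩, rfl⟩, hxB⟩ := key
  refine ⟨fun H => if h : H ∈ P then μ₀ ⟨H, h⟩ else 0, ?_, ?_, ?_, ?_⟩
  · intro H
    simp only
    split_ifs with h
    · exact hμ0 _
    · exact le_rfl
  · intro H h
    by_contra hcon
    simp only [hcon, dite_false, ne_eq, not_true_eq_false] at h
  · rw [← sum_coe_sort P (fun H => if h : H ∈ P then μ₀ ⟨H, h⟩ else 0), ← hμ1]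
    refine sum_congr rfl fun H _ => ?_
    rw [dif_pos H.2]
  · intro u hu v hv huv
    have h1 := hxB ⟨(u, v), mem_offDiag.2 ⟨hu, hv, huv⟩⟩
    rw [hL] at h1
    refine le_trans (le_of_eq ?_) h1
    rw [sum_filter, ← sum_coe_sort P (fun H => if u ∈ H ∧ v ∈ H then
      (if h : H ∈ P then μ₀ ⟨H, h⟩ else 0) else 0)]
    refine sum_congr rfl fun H _ => ?_
    rw [hχ]
    simp only
    rw [dif_pos H.2]
    split_ifs
    · rw [mul_one]
    · rw [mul_zero]

/-- a spread probability distribution on the realised patterns with `m` elements -/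
theorem pat_dist (m : ℕ) (hm : 1 ≤ m) (V : Finset ℕ) (hV : 700 * m ≤ Real.log V.card)
    (hadm : ∀ p : ℕ, p.Prime → ∃ r : ℕ, ∀ v ∈ V, ¬ p ∣ r + v) (q a : ℕ) (hq : 1 ≤ q)
    (haq : ∀ v ∈ V, Nat.Coprime (a + v) q) :
    ∃ μ : Finset ℕ → ℝ, (∀ H, 0 ≤ μ H) ∧ (∀ H, μ H ≠ 0 → H ⊆ V ∧ H.card = m ∧ Real' q a H) ∧
      ∑ H ∈ V.powerset, μ H = 1 ∧
      ∀ u ∈ V, ∀ v ∈ V, u ≠ v → ∑ H ∈ V.powerset.filter (fun H => u ∈ H ∧ v ∈ H), μ H ≤
        17 * m ^ 2 / V.card ^ 2 := by
  classical
  set P : Finset (Finset ℕ) := V.powerset.filter (fun H => H.card = m ∧ Real' q a H) with hPdef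
  have hPV : ∀ H ∈ P, H ⊆ V := fun H hH => mem_powerset.1 (mem_filter.1 hH).1
  obtain ⟨μ, h1, h2, h3, h4⟩ := duality V P hPV (17 * m ^ 2 / V.card ^ 2) (by
    intro w hw
    obtain ⟨H, hHV, hHm, hHR, hHw⟩ := pat_weight m hm V hV hadm q a hq haq w hw
    exact ⟨H, mem_filter.2 ⟨mem_powerset.2 hHV, hHm, hHR⟩, hHw⟩)
  have hsub : P ⊆ V.powerset := filter_subset _ _
  refine ⟨μ, h1, ?_, ?_, ?_⟩
  · intro H hH
    obtain ⟨g1, g2, g3⟩ := mem_filter.1 (h2 H hH)
    exact ⟨mem_powerset.1 g1, g2, g3⟩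
  · rw [← h3]
    symm
    apply sum_subset hsub
    intro H _ hHP
    by_contra hcon
    exact hHP (h2 H hcon)
  · intro u hu v hv huv
    refine le_trans (le_of_eq ?_) (h4 u hu v hv huv)
    symm
    apply sum_subset (filter_subset_filter _ hsub)
    intro H hH hHP
    by_contra hcon
    exact hHP (mem_filter.2 ⟨h2 H hcon, (mem_filter.1 hH).2⟩)

end Pool.Agent.Helper274_OB
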