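import Mathlib
import Pool.Agent.Helper274_RO.Tree

/-! Positions with dyadic levels whose distances grow faster than a given function, and a block of gaps
between hits (cf. `Pool.Agent.Helper274_RO.Tree`). -/

set_option autoImplicit false

namespace Pool.Agent.Helper274_OB

open Finset
open Pool.Agent.TH779.Ord (el el_mem el_lt el_surj exists_rank)
open Pool.Agent.Helper274_RO (lvl cl RK lvl_le exists_lvl_le good_blockW)

/-- the sizes of the distances -/
def DG (F : ℕ → ℕ) (n : ℕ) : ℕ → ℕ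
  | 0 => 1
  | s + 1 => (n + 2) * DG F n s + ∑ c ∈ range (2 * DG F n s + 1), F c + 1

theorem DG_pos (F : ℕ → ℕ) (n s : ℕ) : 1 ≤ DG F n s := by
  cases s with
  | zero => exact le_rfl
  | succ s => rw [DG]; omega

theorem DG_succ (F : ℕ → ℕ) (n s : ℕ) : (n + 2) * DG F n s < DG F n (s + 1) := by
  rw [DG]
  omega

theorem DG_mono (F : ℕ → ℕ) (n : ℕ) : StrictMono (DG F n) := by
  apply strictMono_nat_of_lt_succ
  intro s
  have h1 := DG_succ F n s
  have h2 : 1 * DG F n s ≤ (n + 2) * DG F n s := Nat.mul_le_mul_right _ (by omega)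
  omega

theorem DG_F (F : ℕ → ℕ) (n : ℕ) {s s' c : ℕ} (hs : s < s') (hc : c ≤ 2 * DG F n s) :
    F c < DG F n s' := by
  have h1 : DG F n (s + 1) ≤ DG F n s' := (DG_mono F n).monotone hs
  refine lt_of_lt_of_le ?_ h1
  rw [DG]
  have h2 : F c ≤ ∑ c ∈ range (2 * DG F n s + 1), F c :=
    single_le_sum (f := F) (fun _ _ => Nat.zero_le _) (mem_range.2 (by omega))
  omega

/-- the place of the position `x` -/
def hG (F : ℕ → ℕ) (n : ℕ) (s : ℕ → ℕ) (x : ℕ) : ℕ := ∑ i ∈ range x, DG F n (s i)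

theorem hG_strictMono (F : ℕ → ℕ) (n : ℕ) (s : ℕ → ℕ) : StrictMono (hG F n s) := by
  apply strictMono_nat_of_lt_succ
  intro x
  unfold hG
  rw [sum_range_succ]
  have := DG_pos F n (s x)
  omega

theorem hG_le (F : ℕ → ℕ) (n N x : ℕ) (s : ℕ → ℕ) (hs : ∀ l, s l ≤ N) (hx : x ≤ n) :
    hG F n s x ≤ n * DG F n N := by
  unfold hG
  calc ∑ l ∈ range x, DG F n (s l) ≤ ∑ _l ∈ range x, DG F n N := by
        apply sum_le_sum
        intro l _
        exact (DG_mono F n).monotone (hs l)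
    _ = x * DG F n N := by rw [sum_const, card_range, smul_eq_mul]
    _ ≤ n * DG F n N := Nat.mul_le_mul_right _ hx

theorem hG_gap (F : ℕ → ℕ) (n : ℕ) (s : ℕ → ℕ) {x y m : ℕ} (hy : y ≤ n)
    (hs : ∀ l < n, ∀ l' < n, s l = s l' → l = l')
    (hm1 : x ≤ m) (hm2 : m < y) (hm : ∀ l, x ≤ l → l < y → s l ≤ s m) :
    DG F n (s m) ≤ hG F n s y - hG F n s x ∧ hG F n s y - hG F n s x ≤ 2 * DG F n (s m) := by
  have hxy : x ≤ y := by omega
  have h5 : hG F n s y - hG F n s x = ∑ l ∈ Ico x y, DG F n (s l) := by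
    unfold hG
    have := sum_range_add_sum_Ico (fun l => DG F n (s l)) hxy
    omega
  rw [h5]
  have hmI : m ∈ Ico x y := mem_Ico.2 ⟨hm1, hm2⟩
  constructor
  · exact single_le_sum (f := fun l => DG F n (s l)) (fun _ _ => Nat.zero_le _) hmI
  · have h6 : ∑ l ∈ (Ico x y).erase m, DG F n (s l) ≤ DG F n (s m) := by
      have hslt : ∀ l ∈ (Ico x y).erase m, s l < s m := by
        intro l hl
        rw [mem_erase, mem_Ico] at hl
        obtain ⟨hlm, hl1, hl2⟩ := hl
        have h8 := hm l hl1 hl2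
        have h9 : s l ≠ s m := fun h => hlm (hs l (by omega) m (by omega) h)
        omega
      rcases Nat.eq_zero_or_pos (s m) with h0 | h0
      · have h7 : (Ico x y).erase m = ∅ := by
          rw [eq_empty_iff_forall_notMem]
          intro l hl
          have := hslt l hl
          omega
        rw [h7, sum_empty]
        exact Nat.zero_le _
      · obtain ⟨t, ht⟩ : ∃ t, s m = t + 1 := ⟨s m - 1, by omega⟩
        have h7 : ∀ l ∈ (Ico x y).erase m, DG F n (s l) ≤ DG F n t := by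
          intro l hl
          have := hslt l hl
          exact (DG_mono F n).monotone (by omega)
        refine (sum_le_card_nsmul _ _ _ h7).trans ?_
        rw [smul_eq_mul, ht]
        have h8 : ((Ico x y).erase m).card ≤ n + 2 := by
          refine (card_le_card (erase_subset _ _)).trans ?_
          rw [Nat.card_Ico]
          omega
        exact (Nat.mul_le_mul_right _ h8).trans (DG_succ F n t).le
    have h7 : ∑ l ∈ Ico x y, DG F n (s l) =
        DG F n (s m) + ∑ l ∈ (Ico x y).erase m, DG F n (s l) :=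
      (add_sum_erase _ _ hmI).symm
    rw [h7]
    omega

/-- the gap with the number `e` -/
noncomputable def gG (F : ℕ → ℕ) (n : ℕ) (s : ℕ → ℕ) (J : Finset ℕ) (e : ℕ) : ℕ :=
  hG F n s (el J (e + 1)) - hG F n s (el J e)

theorem blockG {n k V : ℕ} (F : ℕ → ℕ) (J : Finset ℕ) (hJ : ∀ x ∈ J, x ≤ n) (hk : 1 ≤ k)
    (hJk : k + 1 ≤ J.card)
    (hw : ∑ e ∈ range (J.card - 1), cl V (el J e) (el J (e + 1)) ≤ J.card)
    (e : Equiv.Perm (Fin n)) (he : e ∈ RK (fun i : Fin n => lvl V i))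
    (s : ℕ → ℕ) (hs : ∀ (i : ℕ) (h : i < n), s i = (e ⟨i, h⟩ : ℕ)) :
    ∃ e₀ : ℕ, e₀ + k < J.card ∧ ∃ π : Equiv.Perm (Fin k),
      (∀ u v : Fin k, π u < π v → gG F n s J (e₀ + u) < gG F n s J (e₀ + v) ∧
        F (gG F n s J (e₀ + u)) < gG F n s J (e₀ + v)) ∧
      ∃ y : Fin k → Fin n, StrictMono y ∧ ∑ i, lvl V (y i) ≤ 2 * k ∧
        ∀ i j, e (y i) < e (y j) ↔ π i < π j := by
  classical
  obtain ⟨e₀, he₀, hsum⟩ := good_blockW hk hJk (fun e => cl V (el J e) (el J (e + 1))) hw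
  refine ⟨e₀, he₀, ?_⟩
  have hsinj : ∀ l < n, ∀ l' < n, s l = s l' → l = l' := by
    intro l hl l' hl' h
    rw [hs l hl, hs l' hl'] at h
    have := e.injective (Fin.ext h)
    simpa using this
  have hlt : ∀ u : Fin k, el J (e₀ + u) < el J (e₀ + u + 1) := fun u =>
    el_lt J (by omega) (by have := u.2; omega)
  have hle : ∀ u : Fin k, el J (e₀ + u + 1) ≤ n := fun u =>
    hJ _ (el_mem J (by have := u.2; omega))
  have hmax : ∀ u : Fin k, ∃ m : ℕ, el J (e₀ + u) ≤ m ∧ m < el J (e₀ + u + 1) ∧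
      ∀ l, el J (e₀ + u) ≤ l → l < el J (e₀ + u + 1) → s l ≤ s m := by
    intro u
    obtain ⟨m, hm, hm2⟩ := exists_max_image (Ico (el J (e₀ + u)) (el J (e₀ + u + 1))) s
      ⟨_, mem_Ico.2 ⟨le_rfl, hlt u⟩⟩
    rw [mem_Ico] at hm
    exact ⟨m, hm.1, hm.2, fun l h1 h2 => hm2 l (mem_Ico.2 ⟨h1, h2⟩)⟩
  choose m hm1 hm2 hm3 using hmax
  have hmn : ∀ u, m u < n := fun u => (hm2 u).trans_le (hle u)
  have hmlt : ∀ u v : Fin k, u < v → m u < m v := by
    intro u v huv
    have h1 := hm2 u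
    have h2 := hm1 v
    have h3 : el J (e₀ + u + 1) ≤ el J (e₀ + v) := by
      have huv' : (u : ℕ) < v := huv
      rcases Nat.lt_or_eq_of_le (show e₀ + (u : ℕ) + 1 ≤ e₀ + v by omega) with h | h
      · exact (el_lt J h (by have := v.2; omega)).le
      · rw [h]
    omega
  set y : Fin k → Fin n := fun u => ⟨m u, hmn u⟩ with hy
  have hymono : StrictMono y := fun u v huv => by
    rw [Fin.lt_def]
    exact hmlt u v huv
  have hinj : Function.Injective (fun u : Fin k => e (y u)) := e.injective.comp hymono.injective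
  obtain ⟨π, hπ⟩ := exists_rank _ hinj
  have he' : ∀ l l' : Fin n, lvl V l < lvl V l' → e l' < e l := (mem_filter.1 he).2
  refine ⟨π, ?_, y, hymono, ?_, fun i j => (hπ i j).symm⟩
  · intro u v huv
    have h1 : e (y u) < e (y v) := (hπ u v).1 huv
    have h2 : s (m u) < s (m v) := by
      rw [hs _ (hmn u), hs _ (hmn v)]
      exact h1
    have h3 := (hG_gap F n s (hle u) hsinj (hm1 u) (hm2 u) (hm3 u)).2
    have h4 := (hG_gap F n s (hle v) hsinj (hm1 v) (hm2 v) (hm3 v)).1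
    have h5 : 2 * DG F n (s (m u)) < DG F n (s (m v)) := by
      have h6 : DG F n (s (m u) + 1) ≤ DG F n (s (m v)) := (DG_mono F n).monotone h2
      have h7 := DG_succ F n (s (m u))
      have h8 : 2 * DG F n (s (m u)) ≤ (n + 2) * DG F n (s (m u)) := Nat.mul_le_mul_right _ (by omega)
      omega
    have h6 : F (hG F n s (el J (e₀ + u + 1)) - hG F n s (el J (e₀ + u))) < DG F n (s (m v)) :=
      DG_F F n h2 h3
    show hG F n s (el J (e₀ + u + 1)) - hG F n s (el J (e₀ + u)) <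
      hG F n s (el J (e₀ + v + 1)) - hG F n s (el J (e₀ + v)) ∧
      F (hG F n s (el J (e₀ + u + 1)) - hG F n s (el J (e₀ + u))) <
      hG F n s (el J (e₀ + v + 1)) - hG F n s (el J (e₀ + v))
    exact ⟨by omega, by omega⟩
  · have h1 : ∀ u : Fin k, lvl V (y u) ≤ cl V (el J (e₀ + u)) (el J (e₀ + u + 1)) := by
      intro u
      obtain ⟨i, hi1, hi2, hi3⟩ := exists_lvl_le V (hlt u)
      have hin : i < n := hi2.trans_le (hle u)
      refine le_trans ?_ hi3
      by_contra hcon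
      push Not at hcon
      have h2 := he' ⟨i, hin⟩ (y u) hcon
      have h3 := hm3 u i hi1 hi2
      rw [hs i hin, hs _ (hmn u)] at h3
      exact absurd h2 (not_lt.2 h3)
    calc ∑ u : Fin k, lvl V (y u) ≤ ∑ u : Fin k, cl V (el J (e₀ + u)) (el J (e₀ + u + 1)) :=
          sum_le_sum fun u _ => h1 u
      _ = ∑ e ∈ range k, cl V (el J (e₀ + e)) (el J (e₀ + e + 1)) :=
          Fin.sum_univ_eq_sum_range (fun e => cl V (el J (e₀ + e)) (el J (e₀ + e + 1))) k
      _ ≤ 2 * k := hsum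

end Pool.Agent.Helper274_OB
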