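import Mathlib
import Pool.Agent.Helper274_OB.ExactW
import Pool.Agent.Helper274_OB.TreeG

/-! Orders of consecutive prime gaps of bounded length (cf. `Pool.Agent.TH779.Ord.Main`, helper779). -/

set_option autoImplicit false

namespace Pool.Agent.Helper274_OB

open Finset
open Pool.Agent.TH779.Ord (el el_mem el_lt el_surj exists_rank)
open Pool.Agent.Helper274_RO (lvl cl RK lvl_le lvl_card cl_row consec_le many_patterns)

/-- a block of hits is a block of consecutive primes -/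
theorem nth_block (n k : ℕ) (r : ℕ → ℕ) (hr : ∀ i j, i < j → j ≤ k → r i < r j)
    (hp : ∀ i ≤ k, (n + r i).Prime)
    (hno : ∀ y, r 0 ≤ y → y ≤ r k → (n + y).Prime → ∃ i ≤ k, y = r i) :
    ∃ m : ℕ, ∀ i ≤ k, Nat.nth Nat.Prime (m + i) = n + r i := by
  have hinf : (Set.ofPred Nat.Prime).Infinite := Nat.infinite_setOfPred_prime
  have hle : ∀ i j, i ≤ j → j ≤ k → r i ≤ r j := by
    intro i j hij hj
    rcases Nat.lt_or_eq_of_le hij with h | h
    · exact (hr i j h hj).le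
    · rw [h]
  refine ⟨Nat.count Nat.Prime (n + r 0), fun i => ?_⟩
  induction i with
  | zero =>
    intro _
    rw [add_zero]
    exact Nat.nth_count (hp 0 (Nat.zero_le _))
  | succ i ih =>
    intro hi
    have h1 := ih (by omega)
    set m := Nat.count Nat.Prime (n + r 0) with hm
    have h2 : Nat.nth Nat.Prime (m + i) < Nat.nth Nat.Prime (m + (i + 1)) :=
      Nat.nth_strictMono hinf (by omega)
    have h3 : Nat.nth Nat.Prime (Nat.count Nat.Prime (n + r (i + 1))) = n + r (i + 1) :=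
      Nat.nth_count (hp (i + 1) hi)
    have h4 : m + i < Nat.count Nat.Prime (n + r (i + 1)) := by
      have := hr i (i + 1) (by omega) hi
      rw [← (Nat.nth_strictMono hinf).lt_iff_lt, h3, h1]
      omega
    have h5 : Nat.nth Nat.Prime (m + (i + 1)) ≤ n + r (i + 1) := by
      rw [← h3]
      exact (Nat.nth_strictMono hinf).monotone (by omega)
    have h6 : (Nat.nth Nat.Prime (m + (i + 1))).Prime := Nat.prime_nth_prime _
    rw [h1] at h2
    obtain ⟨y, hy⟩ : ∃ y, Nat.nth Nat.Prime (m + (i + 1)) = n + y :=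
      ⟨Nat.nth Nat.Prime (m + (i + 1)) - n, by omega⟩
    rw [hy] at h2 h5 h6 ⊢
    have h7 : r 0 ≤ r i := hle 0 i (Nat.zero_le _) (by omega)
    have h8 : r (i + 1) ≤ r k := hle (i + 1) k hi le_rfl
    obtain ⟨j, hj, hyj⟩ := hno y (by omega) (by omega) h6
    rcases lt_trichotomy j (i + 1) with h | h | h
    · have := hle j i (by omega) (by omega)
      omega
    · rw [hyj, h]
    · have := hr (i + 1) j h hj
      omega

theorem adm_fact (M : ℕ) (g : ℕ → ℕ) (p : ℕ) (hp : p.Prime) :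
    ∃ r : ℕ, ∀ x < M, ¬ p ∣ r + (M + 1).factorial * g x := by
  classical
  by_cases h : p ≤ M + 1
  · refine ⟨1, fun x _ hd => ?_⟩
    have h1 : p ∣ (M + 1).factorial * g x := ((Nat.Prime.dvd_factorial hp).2 h).mul_right _
    exact hp.one_lt.ne' (Nat.dvd_one.1 ((Nat.dvd_add_left h1).1 hd))
  · have : Fact p.Prime := ⟨hp⟩
    set I : Finset (ZMod p) := (range M).image
      (fun x => -(((M + 1).factorial * g x : ℕ) : ZMod p)) with hI
    have hcard : I.card < (univ : Finset (ZMod p)).card := by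
      rw [card_univ, ZMod.card]
      calc I.card ≤ (range M).card := card_image_le
        _ = M := card_range M
        _ < p := by omega
    obtain ⟨r, _, hr⟩ := exists_mem_notMem_of_card_lt_card hcard
    refine ⟨r.val, fun x hx hd => hr ?_⟩
    rw [hI, mem_image]
    refine ⟨x, mem_range.2 hx, ?_⟩
    rw [← ZMod.natCast_eq_zero_iff] at hd
    rw [Nat.cast_add, ZMod.natCast_zmod_val] at hd
    exact (eq_neg_of_add_eq_zero_left hd).symm

/-- the orders of the entries of vectors `d` with entries at most `L`, such that `q d` is infinitely often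
the vector of `k` consecutive gaps between primes in the class of `a` modulo `q` -/
def PB (q a k : ℕ) (F : ℕ → ℕ) (L : ℕ) : Set (Equiv.Perm (Fin k)) :=
  {π | ∃ d : Fin k → ℕ, (∀ i, d i ≤ L) ∧ (∀ i j, π i < π j → d i < d j ∧ F (d i) < d j) ∧
    {n : ℕ | Nat.nth Nat.Prime n ≡ a [MOD q] ∧
      ∀ i : Fin k, Nat.nth Nat.Prime (n + i + 1) = Nat.nth Nat.Prime (n + i) + q * d i}.Infinite}

/-- the main step -/
theorem permW (k : ℕ) (hk : 1 ≤ k) (F : ℕ → ℕ) : ∃ L : ℕ, ∀ q a : ℕ, 1 ≤ q → Nat.Coprime a q →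
    k.factorial ^ 2 ≤ (PB q a k F L).ncard *
      ((2 ^ Nat.clog 2 (128 * (k + 1))) ^ k * 2 ^ (2 * k) * (2 ^ (2 * k + k)) ^ 3) := by
  classical
  obtain ⟨τ, hτ⟩ : ∃ τ, τ = Nat.clog 2 (128 * (k + 1)) := ⟨_, rfl⟩
  rw [← hτ]
  have hτ1 : 128 * (k + 1) ≤ 2 ^ τ := by rw [hτ]; exact Nat.le_pow_clog (by norm_num) _
  have hz : (1 : ℝ) ≤ 2 * ((k : ℝ) + 1) := by
    have : (0 : ℝ) ≤ k := Nat.cast_nonneg k
    linarith
  obtain ⟨V, hV2, hex⟩ := exact_fewW (2 * ((k : ℝ) + 1)) hz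
  obtain ⟨B, hB⟩ : ∃ B, B = V + τ := ⟨_, rfl⟩
  obtain ⟨M, hM⟩ : ∃ M, M = 2 ^ B := ⟨_, rfl⟩
  obtain ⟨n, hn⟩ : ∃ n, n = 2 ^ B - 1 := ⟨_, rfl⟩
  have hM0 : 1 ≤ M := by rw [hM]; exact Nat.one_le_two_pow
  have hMn : M = n + 1 := by omega
  have hVM : V ≤ M := by
    have h1 : V < 2 ^ V := Nat.lt_two_pow_self
    have h2 : 2 ^ V ≤ M := by rw [hM, hB]; exact Nat.pow_le_pow_right (by norm_num) (by omega)
    omega
  obtain ⟨F0, hF0⟩ : ∃ F0, F0 = (M + 1).factorial := ⟨_, rfl⟩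
  have hF0p : 0 < F0 := by rw [hF0]; exact Nat.factorial_pos _
  obtain ⟨F', hF'⟩ : ∃ F' : ℕ → ℕ, F' = fun c => F (F0 * c) := ⟨_, rfl⟩
  have hzR : 32 * (2 * ((k : ℝ) + 1)) * ((2 ^ (V + 1) : ℕ) : ℝ) ≤ (M : ℝ) := by
    have h1 : 128 * (k + 1) * 2 ^ V ≤ M := by
      rw [hM, hB, pow_add, mul_comm (2 ^ V) (2 ^ τ)]
      exact Nat.mul_le_mul_right _ hτ1
    have h2 : ((128 * (k + 1) * 2 ^ V : ℕ) : ℝ) ≤ M := by exact_mod_cast h1
    push_cast at h2 ⊢
    calc 32 * (2 * ((k : ℝ) + 1)) * 2 ^ (V + 1) = 128 * ((k : ℝ) + 1) * 2 ^ V := by ring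
      _ ≤ M := h2
  refine ⟨F0 * (n * DG F' n n), fun q a hq haq => ?_⟩
  have hfin : (PB q a k F (F0 * (n * DG F' n n))).Finite := Set.toFinite _
  rw [Set.ncard_eq_toFinset_card _ hfin]
  apply many_patterns (fun i : Fin (2 ^ B - 1) => lvl V i) V (2 ^ τ) (2 * k) (fun l => lvl_le V l)
    (fun a => lvl_card B τ V a hB.symm)
  rw [← hn]
  intro e he
  set s : ℕ → ℕ := fun l => if h : l < n then (e ⟨l, h⟩ : ℕ) else 0 with hs
  have hs' : ∀ (l : ℕ) (h : l < n), s l = (e ⟨l, h⟩ : ℕ) := by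
    intro l h
    rw [hs]
    simp only [h, dite_true]
  have hsn : ∀ l, s l ≤ n := by
    intro l
    by_cases h : l < n
    · rw [hs' l h]
      exact (e ⟨l, h⟩).2.le
    · rw [hs]
      simp only [h, dite_false]
      exact Nat.zero_le _
  have hmono : StrictMono (hG F' n s) := hG_strictMono F' n s
  obtain ⟨J, hJ1, hJ2, hJ3⟩ := hex M hVM ((2 ^ (V + 1) : ℕ) : ℝ) (Nat.cast_nonneg _) hzR
    (fun x y => (cl V x y : ℝ)) (fun _ _ => Nat.cast_nonneg _)
    (by
      intro x _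
      have h1 : ∑ y ∈ (range M).filter (fun y => x ≠ y), cl V x y ≤ 2 ^ (V + 1) :=
        (sum_le_sum_of_subset (filter_subset _ _)).trans (cl_row V M x)
      exact_mod_cast h1)
    q a hq haq (fun x => F0 * hG F' n s x)
    (by
      intro x _ y _ h
      exact hmono.injective (Nat.eq_of_mul_eq_mul_left hF0p h))
    (by
      intro p hp
      rw [hF0]
      exact adm_fact M (hG F' n s) p hp)
  have hJn : ∀ x ∈ J, x ≤ n := fun x hx => by have := hJ1 x hx; omega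
  have hΦ : (k : ℝ) + 1 ≤ (J.card : ℝ) -
      ((∑ x ∈ J, ∑ y ∈ J.filter (fun y => x ≠ y), cl V x y : ℕ) : ℝ) := by
    unfold Fw at hJ2
    push_cast
    linarith
  have hJk : k + 1 ≤ J.card := by
    have g1 : (0 : ℝ) ≤ ((∑ x ∈ J, ∑ y ∈ J.filter (fun y => x ≠ y), cl V x y : ℕ) : ℝ) :=
      Nat.cast_nonneg _
    have g2 : ((k + 1 : ℕ) : ℝ) ≤ (J.card : ℝ) := by
      push_cast
      linarith
    exact_mod_cast g2
  have hJw : ∑ e ∈ range (J.card - 1), cl V (el J e) (el J (e + 1)) ≤ J.card := by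
    refine (consec_le J (cl V)).trans ?_
    have g2 : ((∑ x ∈ J, ∑ y ∈ J.filter (fun y => x ≠ y), cl V x y : ℕ) : ℝ) ≤ (J.card : ℝ) := by
      have : (0 : ℝ) ≤ k := Nat.cast_nonneg k
      linarith
    exact_mod_cast g2
  obtain ⟨e₀, he₀, π, hπ, y', hy', hyl, hxy⟩ := blockG F' J hJn hk hJk hJw e he s hs'
  refine ⟨π, ?_, y', hy', hyl, hxy⟩
  rw [Set.Finite.mem_toFinset]
  refine ⟨fun i => F0 * gG F' n s J (e₀ + i), ?_, ?_, ?_⟩
  · intro i
    apply Nat.mul_le_mul_left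
    unfold gG
    refine (Nat.sub_le _ _).trans (hG_le F' n n _ s hsn (hJn _ (el_mem J (by have := i.2; omega))))
  · intro i j hij
    obtain ⟨h1, h2⟩ := hπ i j hij
    refine ⟨Nat.mul_lt_mul_of_pos_left h1 hF0p, ?_⟩
    rw [hF'] at h2
    have h3 : F (F0 * gG F' n s J (e₀ + i)) < gG F' n s J (e₀ + j) := by
      rw [hF']
      exact h2
    exact h3.trans_le (Nat.le_mul_of_pos_left _ hF0p)
  · rw [Set.infinite_iff_exists_gt]
    intro N0
    obtain ⟨N, ⟨hn1, hn2, hn3⟩, hn4⟩ := hJ3.exists_gt (Nat.nth Nat.Prime N0)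
    set r : ℕ → ℕ := fun i => q * (F0 * hG F' n s (el J (e₀ + i))) with hr
    have hqF : ∀ u v : ℕ, u < v → q * (F0 * u) < q * (F0 * v) := fun u v h =>
      Nat.mul_lt_mul_of_pos_left (Nat.mul_lt_mul_of_pos_left h hF0p) hq
    have hrlt : ∀ i j, i < j → j ≤ k → r i < r j := by
      intro i j hij hj
      exact hqF _ _ (hmono (el_lt J (by omega) (by omega)))
    obtain ⟨m, hm⟩ := nth_block N k r hrlt
      (fun i hi => hn2 _ (el_mem J (by omega)))
      (by
        intro z hz1 hz2 hz3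
        obtain ⟨w, hw, hzw⟩ := hn3 z ⟨el J (e₀ + k), hJ1 _ (el_mem J he₀), hz2⟩ hz3
        obtain ⟨e, he, hew⟩ := el_surj J hw
        rw [← hew] at hzw
        have h1 : e₀ ≤ e := by
          by_contra hcon
          push Not at hcon
          have := hqF _ _ (hmono (el_lt J hcon (by omega)))
          have h2 : r 0 = q * (F0 * hG F' n s (el J e₀)) := rfl
          omega
        have h2 : e ≤ e₀ + k := by
          by_contra hcon
          push Not at hcon
          have := hqF _ _ (hmono (el_lt J hcon he))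
          have h2 : r k = q * (F0 * hG F' n s (el J (e₀ + k))) := rfl
          omega
        refine ⟨e - e₀, by omega, ?_⟩
        rw [hzw, hr]
        simp only
        rw [Nat.add_sub_cancel' h1])
    have hinf : (Set.ofPred Nat.Prime).Infinite := Nat.infinite_setOfPred_prime
    refine ⟨m, ⟨?_, ?_⟩, ?_⟩
    · have h0 := hm 0 (Nat.zero_le _)
      rw [add_zero] at h0
      rw [h0]
      have h1 : N + r 0 ≡ a + 0 [MOD q] := Nat.ModEq.add hn1
        ((Nat.modEq_zero_iff_dvd).2 (Dvd.intro _ rfl))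
      rwa [add_zero] at h1
    · intro i
      have h1 := hm i i.2.le
      have h2 := hm (i + 1) i.2
      rw [← add_assoc] at h2
      rw [h1, h2]
      have h3 : r i = q * (F0 * hG F' n s (el J (e₀ + i))) := rfl
      have h4 : r (i + 1) = q * (F0 * hG F' n s (el J (e₀ + i + 1))) := rfl
      rw [h3, h4]
      have h5 : hG F' n s (el J (e₀ + i)) < hG F' n s (el J (e₀ + i + 1)) :=
        hmono (el_lt J (by omega) (by have := i.2; omega))
      have h6 := hqF _ _ h5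
      have h7 : q * (F0 * gG F' n s J (e₀ + i)) =
          q * (F0 * hG F' n s (el J (e₀ + i + 1))) - q * (F0 * hG F' n s (el J (e₀ + i))) := by
        unfold gG
        rw [Nat.mul_sub, Nat.mul_sub]
      show N + q * (F0 * hG F' n s (el J (e₀ + i + 1))) =
        N + q * (F0 * hG F' n s (el J (e₀ + i))) + q * (F0 * gG F' n s J (e₀ + i))
      rw [h7]
      omega
    · have h1 := hm 0 (Nat.zero_le _)
      rw [add_zero] at h1
      have h2 : Nat.nth Nat.Prime N0 < Nat.nth Nat.Prime m := by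
        rw [h1]
        omega
      exact (Nat.nth_strictMono hinf).lt_iff_lt.1 h2

theorem succ_pow_leB {k : ℕ} (hk : 1 ≤ k) : ((k : ℝ) + 1) ^ k ≤ k.factorial * 8 ^ k := by
  have hkf : (0 : ℝ) < k.factorial := by exact_mod_cast Nat.factorial_pos k
  have hk1 : (1 : ℝ) ≤ k := by exact_mod_cast hk
  have h1 := Real.pow_div_factorial_le_exp ((k : ℝ) + 1) (by positivity) k
  rw [div_le_iff₀ hkf] at h1
  have h2 : Real.exp ((k : ℝ) + 1) ≤ 8 ^ k := by
    have h3 : Real.exp 2 ≤ 8 := by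
      have h4 : Real.exp 2 = Real.exp 1 * Real.exp 1 := by rw [← Real.exp_add]; norm_num
      have h5 := Real.exp_one_lt_d9
      have h6 := Real.exp_pos 1
      rw [h4]
      nlinarith
    calc Real.exp ((k : ℝ) + 1) ≤ Real.exp (k * 2) := Real.exp_le_exp.2 (by linarith)
      _ = Real.exp 2 ^ k := by rw [Real.exp_nat_mul]
      _ ≤ 8 ^ k := pow_le_pow_left₀ (Real.exp_pos _).le h3 _
  calc ((k : ℝ) + 1) ^ k ≤ Real.exp ((k : ℝ) + 1) * k.factorial := h1
    _ ≤ 8 ^ k * k.factorial := mul_le_mul_of_nonneg_right h2 hkf.le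
    _ = _ := mul_comm _ _

/-- at least `k! / 2 ^ (22 k)` orders -/
theorem orders_bounded (k : ℕ) (hk : 1 ≤ k) (F : ℕ → ℕ) : ∃ L : ℕ, ∀ q a : ℕ, 1 ≤ q →
    Nat.Coprime a q → (k.factorial : ℝ) / (2 ^ 22) ^ k ≤ ((PB q a k F L).ncard : ℝ) := by
  obtain ⟨L, hL⟩ := permW k hk F
  refine ⟨L, fun q a hq haq => ?_⟩
  have hmain := hL q a hq haq
  have hkf : (0 : ℝ) < k.factorial := by exact_mod_cast Nat.factorial_pos k
  have hk1 : (1 : ℝ) ≤ k := by exact_mod_cast hk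
  obtain ⟨Y, hY⟩ : ∃ Y : ℕ, Y = 128 * (k + 1) := ⟨_, rfl⟩
  rw [← hY] at hmain
  have hY1 : 1 < Y := by omega
  obtain ⟨τ, hτ⟩ : ∃ τ, τ = Nat.clog 2 Y := ⟨_, rfl⟩
  rw [← hτ] at hmain
  have hτk : (2 : ℝ) ^ τ ≤ 256 * ((k : ℝ) + 1) := by
    have h0 : Y ≤ 2 ^ τ := by
      rw [hτ]
      exact Nat.le_pow_clog (by norm_num) _
    have h1 : 2 ^ (τ - 1) < Y := by
      rw [hτ]
      exact Nat.pow_pred_clog_lt_self (by norm_num) hY1
    have h2 : 1 ≤ τ := by
      by_contra hcon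
      have h3 : τ = 0 := by omega
      rw [h3, pow_zero] at h0
      omega
    have h3 : 2 ^ τ = 2 * 2 ^ (τ - 1) := by
      rw [← pow_succ', Nat.sub_add_cancel h2]
    have h4 : 2 ^ τ ≤ 256 * (k + 1) := by omega
    exact_mod_cast h4
  rw [div_le_iff₀ (by positivity)]
  have h1 : (k.factorial : ℝ) ^ 2 ≤ (PB q a k F L).ncard *
      ((2 ^ τ) ^ k * 2 ^ (2 * k) * (2 ^ (2 * k + k)) ^ 3) := by exact_mod_cast hmain
  have h2 : ((2 : ℝ) ^ τ) ^ k * 2 ^ (2 * k) * (2 ^ (2 * k + k)) ^ 3 = (2 ^ τ * 2 ^ 11) ^ k := by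
    rw [mul_pow, ← pow_mul, ← pow_mul, ← pow_mul, mul_assoc, ← pow_add]
    congr 2
    ring
  have h3 : ((2 : ℝ) ^ τ * 2 ^ 11) ^ k ≤ (256 * ((k : ℝ) + 1) * 2 ^ 11) ^ k :=
    pow_le_pow_left₀ (by positivity) (mul_le_mul_of_nonneg_right hτk (by positivity)) _
  have h4 : (256 * ((k : ℝ) + 1) * 2 ^ 11) ^ k = (2 ^ 19) ^ k * ((k : ℝ) + 1) ^ k := by
    rw [← mul_pow]
    congr 1
    ring
  have h5 : ((2 : ℝ) ^ 19) ^ k * ((k : ℝ) + 1) ^ k ≤ (2 ^ 19) ^ k * (k.factorial * 8 ^ k) :=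
    mul_le_mul_of_nonneg_left (succ_pow_leB hk) (by positivity)
  have h6 : ((2 : ℝ) ^ 19) ^ k * ((k.factorial : ℝ) * 8 ^ k) = (2 ^ 22) ^ k * k.factorial := by
    have : ((2 : ℝ) ^ 22) = 2 ^ 19 * 8 := by norm_num
    rw [this, mul_pow _ (8 : ℝ)]
    ring
  have h7 : (k.factorial : ℝ) * k.factorial ≤
      ((PB q a k F L).ncard * (2 ^ 22) ^ k) * k.factorial := by
    calc (k.factorial : ℝ) * k.factorial = (k.factorial : ℝ) ^ 2 := by ring
      _ ≤ (PB q a k F L).ncard * ((2 ^ τ * 2 ^ 11) ^ k) := by rw [← h2]; exact h1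
      _ ≤ (PB q a k F L).ncard * ((2 ^ 22) ^ k * k.factorial) :=
        mul_le_mul_of_nonneg_left (h3.trans (h4.le.trans (h5.trans h6.le))) (Nat.cast_nonneg _)
      _ = _ := by ring
  exact le_of_mul_le_mul_right h7 hkf

end Pool.Agent.Helper274_OB
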